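import Pool.Agent.P.MP_50fd71_pr.Basic

/-!
Counts in disjoint regions generate independent families of events.
-/

open MeasureTheory ProbabilityTheory Set Metric Bornology

noncomputable section

namespace Pool.Agent.P.MP_50fd71_pr

namespace AndP

open Classical in
/-- the members of `H` containing `x` -/
def typ (H : Finset (Set ℂ)) (x : ℂ) : Finset (Set ℂ) := H.filter fun A => x ∈ A

/-- atoms of a finite family -/
def At (H s : Finset (Set ℂ)) : Set ℂ := {x | typ H x = s}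

lemma mem_typ {H : Finset (Set ℂ)} {x : ℂ} {A : Set ℂ} : A ∈ typ H x ↔ A ∈ H ∧ x ∈ A := by
  classical
  unfold typ
  exact Finset.mem_filter

lemma at_subset {H s : Finset (Set ℂ)} {A : Set ℂ} (hA : A ∈ s) : At H s ⊆ A := by
  intro x hx
  have h : typ H x = s := hx
  rw [← h] at hA
  exact (mem_typ.1 hA).2

lemma at_meas {H s : Finset (Set ℂ)} (hH : ∀ A ∈ H, MeasurableSet A) (hs : s ⊆ H) :
    MeasurableSet (At H s) := by
  have : At H s = ⋂ A ∈ H, {x | x ∈ A ↔ A ∈ s} := by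
    ext x
    simp only [At, mem_ofPred_eq, mem_iInter]
    constructor
    · rintro rfl A hA
      simp [mem_typ, hA]
    · intro h
      ext A
      rw [mem_typ]
      exact ⟨fun hA => (h A hA.1).1 hA.2, fun hA => ⟨hs hA, (h A (hs hA)).2 hA⟩⟩
  rw [this]
  refine Finset.measurableSet_biInter _ fun A hA => ?_
  by_cases h : A ∈ s
  · simpa [h] using hH A hA
  · have : {x | x ∈ A ↔ A ∈ s} = Aᶜ := by
      ext x
      simp [h]
    rw [this]
    exact (hH A hA).compl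

lemma at_disj (H : Finset (Set ℂ)) {s t : Finset (Set ℂ)} (h : s ≠ t) :
    Disjoint (At H s) (At H t) := by
  rw [Set.disjoint_left]
  intro x hx hx'
  exact h ((show typ H x = s from hx).symm.trans hx')

lemma cnt_sum {S A : Set ℂ} {H : Finset (Set ℂ)} (hf : (S ∩ A).Finite)
    (I : Finset (Finset (Set ℂ))) (hI : ∀ x ∈ A, typ H x ∈ I) (hA : ∀ s ∈ I, A ∈ s) :
    cnt S A = ∑ s ∈ I, cnt S (At H s) := by
  classical
  have h1 := Finset.card_eq_sum_card_fiberwise (f := typ H) (s := hf.toFinset) (t := I)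
    (fun x hx => hI x (by simpa using (hf.mem_toFinset.1 hx).2))
  unfold cnt
  rw [Set.ncard_eq_toFinset_card _ hf, h1]
  refine Finset.sum_congr rfl fun s hs => ?_
  rw [← Set.ncard_coe_finset]
  congr 1
  ext x
  simp only [Finset.coe_filter, Finite.mem_toFinset, mem_inter_iff, mem_ofPred_eq]
  exact ⟨fun h => ⟨h.1.1, h.2⟩, fun h => ⟨⟨h.1, at_subset (hA s hs) h.2⟩, h.2⟩⟩

variable {Ω : Type} [m : MeasurableSpace Ω] {μ : Measure Ω} {P : Ω → Set ℂ}

lemma ind_fin (hP : Poi μ P) {ι : Type} [Fintype ι] (A : ι → Set ℂ) (hA : ∀ i, Ok (A i))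
    (hd : Pairwise (Function.onFun Disjoint A)) :
    iIndepFun (fun i ω => cnt (P ω) (A i)) μ := by
  have e := Fintype.equivFin ι
  have h := hP.ind _ (fun j => A (e.symm j)) (fun j => hA _)
    (fun j k hjk => hd (e.symm.injective.ne hjk))
  have h2 := h.precomp (g := e) e.injective
  simpa using h2

/-- events determined by the counts in a finite family -/
@[instance_reducible] def sf (P : Ω → Set ℂ) (F : Finset (Set ℂ)) : MeasurableSpace Ω :=
  ⨆ A ∈ F, MeasurableSpace.comap (fun ω => cnt (P ω) A) ⊤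

lemma sf_le_atoms (hP : Poi μ P) {H F : Finset (Set ℂ)} (hH : ∀ A ∈ H, Ok A) (hF : F ⊆ H)
    (I : Finset (Finset (Set ℂ))) (hI : ∀ x, ∀ A ∈ H, x ∈ A → typ H x ∈ I) :
    sf P F ≤ ⨆ s ∈ {s : I | (At H s).Nonempty ∧ ∃ A ∈ F, A ∈ s.1},
      MeasurableSpace.comap (fun ω => cnt (P ω) (At H s)) ⊤ := by
  classical
  refine iSup₂_le fun A hA => ?_
  have key : (fun ω => cnt (P ω) A) =
      fun ω => ∑ s ∈ I.filter (fun s => (At H s).Nonempty ∧ A ∈ s), cnt (P ω) (At H s) := by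
    funext ω
    refine cnt_sum (hP.fin ω A (hH A (hF hA)).2) _ (fun x hx => ?_) (fun s hs => ?_)
    · exact Finset.mem_filter.2 ⟨hI x A (hF hA) hx, ⟨x, rfl⟩, mem_typ.2 ⟨hF hA, hx⟩⟩
    · exact (Finset.mem_filter.1 hs).2.2
  rw [key]
  refine Measurable.comap_le (Finset.measurable_sum _ fun s hs => ?_)
  obtain ⟨h1, h2, h3⟩ := Finset.mem_filter.1 hs
  exact Measurable.of_comap_le (le_iSup₂_of_le (f := fun (s : I)
    (_ : s ∈ {s : I | (At H s).Nonempty ∧ ∃ A ∈ F, A ∈ s.1}) =>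
    MeasurableSpace.comap (fun ω => cnt (P ω) (At H s)) ⊤) ⟨s, h1⟩ ⟨h2, A, hA, h3⟩ le_rfl)

lemma indep_sf (hP : Poi μ P) {F F' : Finset (Set ℂ)} (hF : ∀ A ∈ F, Ok A) (hF' : ∀ A ∈ F', Ok A)
    (hd : ∀ A ∈ F, ∀ A' ∈ F', Disjoint A A') : Indep (sf P F) (sf P F') μ := by
  classical
  set H : Finset (Set ℂ) := F ∪ F' with hHdef
  have hH : ∀ A ∈ H, Ok A := fun A hA => (Finset.mem_union.1 hA).elim (hF A) (hF' A)
  set I : Finset (Finset (Set ℂ)) := H.powerset.filter Finset.Nonempty with hIdef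
  have hI : ∀ x, ∀ A ∈ H, x ∈ A → typ H x ∈ I := fun x A hA hx =>
    Finset.mem_filter.2 ⟨Finset.mem_powerset.2 fun B hB => (mem_typ.1 hB).1, A, mem_typ.2 ⟨hA, hx⟩⟩
  have hok : ∀ s : I, Ok (At H s) := by
    rintro ⟨s, hs⟩
    obtain ⟨h1, A, hA⟩ := Finset.mem_filter.1 hs
    have h2 := Finset.mem_powerset.1 h1
    exact ⟨at_meas (fun A hA => (hH A hA).1) h2, (hH A (h2 hA)).2.subset (at_subset hA)⟩
  have h1 := (ind_fin hP (fun s : I => At H s) hok
    (fun s t hst => at_disj H (Subtype.coe_injective.ne hst))).iIndep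
  have h2 := indep_iSup_of_disjoint (fun s => (hP.meas _ (hok s)).comap_le) h1
    (S := {s : I | (At H s).Nonempty ∧ ∃ A ∈ F, A ∈ s.1})
    (T := {s : I | (At H s).Nonempty ∧ ∃ A ∈ F', A ∈ s.1}) (by
      rw [Set.disjoint_left]
      rintro s ⟨⟨x, hx⟩, A, hA, hs⟩ ⟨_, A', hA', hs'⟩
      exact Set.disjoint_left.1 (hd A hA A' hA') (at_subset hs hx) (at_subset hs' hx))
  exact indep_of_indep_of_le h2 (sf_le_atoms hP hH Finset.subset_union_left I hI)
    (sf_le_atoms hP hH Finset.subset_union_right I hI)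

/-- finite families of bounded measurable subsets of `W` -/
def Fam (W : Set ℂ) : Type := {F : Finset (Set ℂ) // ∀ A ∈ F, Ok A ∧ A ⊆ W}

omit m in
lemma sig_le_sup (P : Ω → Set ℂ) (W : Set ℂ) : sig P W ≤ ⨆ F : Fam W, sf P F.1 :=
  iSup₂_le fun A hA => le_iSup_of_le (⟨{A}, by simpa using hA⟩ : Fam W)
    (le_iSup₂_of_le (f := fun B (_ : B ∈ ({A} : Finset (Set ℂ))) =>
      MeasurableSpace.comap (fun ω => cnt (P ω) B) ⊤) A (Finset.mem_singleton_self A) le_rfl)

omit m in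
lemma sf_mono (P : Ω → Set ℂ) {F F' : Finset (Set ℂ)} (h : F ⊆ F') : sf P F ≤ sf P F' :=
  iSup₂_le fun A hA => le_iSup₂_of_le (f := fun B (_ : B ∈ F') =>
    MeasurableSpace.comap (fun ω => cnt (P ω) B) ⊤) A (h hA) le_rfl

omit m in
lemma sf_dir (P : Ω → Set ℂ) (W : Set ℂ) : Directed (· ≤ ·) fun F : Fam W => sf P F.1 := by
  classical
  intro F F'
  exact ⟨⟨F.1 ∪ F'.1, fun A hA => (Finset.mem_union.1 hA).elim (F.2 A) (F'.2 A)⟩,
    sf_mono P Finset.subset_union_left, sf_mono P Finset.subset_union_right⟩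

lemma sf_le (hP : Poi μ P) {W : Set ℂ} (F : Fam W) : sf P F.1 ≤ m :=
  iSup₂_le fun A hA => (hP.meas A (F.2 A hA).1).comap_le

lemma indep_sig (hP : Poi μ P) {W W' : Set ℂ} (hd : Disjoint W W') :
    Indep (sig P W) (sig P W') μ := by
  have := hP.prob
  refine indep_of_indep_of_le ?_ (sig_le_sup P W) (sig_le_sup P W')
  refine indep_iSup_of_directed_le (fun F => ?_) (sf_le hP) (iSup_le (sf_le hP)) (sf_dir P W)
  refine Indep.symm ?_
  refine indep_iSup_of_directed_le (fun F' => ?_) (sf_le hP) (sf_le hP F) (sf_dir P W')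
  exact indep_sf hP (fun A hA => (F'.2 A hA).1) (fun A hA => (F.2 A hA).1)
    fun A hA A' hA' => hd.symm.mono (F'.2 A hA).2 (F.2 A' hA').2

end AndP

theorem sand : SAnd := by
  intro W W' E E' p p' hd h h' Ω _ μ P hP
  obtain ⟨G, h1, h2, h3⟩ := h Ω μ P hP
  obtain ⟨G', h1', h2', h3'⟩ := h' Ω μ P hP
  refine ⟨G ∩ G', (sig_mono P subset_union_left G h1).inter (sig_mono P subset_union_right G' h1'),
    ?_, fun ω hω => ⟨h3 ω hω.1, h3' ω hω.2⟩⟩
  have key : μ (G ∩ G') = μ G * μ G' :=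
    (Indep_iff _ _ _).1 (AndP.indep_sig hP hd) G G' h1 h1'
  have : μ.real (G ∩ G') = μ.real G * μ.real G' := by
    simp only [measureReal_def, key, ENNReal.toReal_mul]
  rw [this]
  exact mul_le_mul h2 h2' measureReal_nonneg (measureReal_nonneg.trans h2)

end Pool.Agent.P.MP_50fd71_pr
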