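import Pool.Agent.P.MP_50fd71_pr.Basic

/-!
Areas of annular sectors and of the crescent.
-/

open MeasureTheory ProbabilityTheory Set Metric Bornology

noncomputable section

namespace Pool.Agent.P.MP_50fd71_pr

namespace AreaP

lemma meas_pol {R A : Set ℝ} (hR : MeasurableSet R) (hA : MeasurableSet A) :
    MeasurableSet {x : ℂ | ‖x‖ ∈ R ∧ x.arg ∈ A} :=
  (measurable_norm hR).inter (Complex.measurable_arg hA)

lemma vol_pol {R A : Set ℝ} (hR : MeasurableSet R) (hA : MeasurableSet A) :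
    volume {x : ℂ | ‖x‖ ∈ R ∧ x.arg ∈ A} =
      (∫⁻ r in R ∩ Ioi 0, ENNReal.ofReal r) * volume (A ∩ Ioo (-Real.pi) Real.pi) := by
  rw [← lintegral_indicator_one (meas_pol hR hA), ← Complex.lintegral_comp_polarCoord_symm]
  have h1 : ∫⁻ p in polarCoord.target, ENNReal.ofReal p.1 •
      ({x : ℂ | ‖x‖ ∈ R ∧ x.arg ∈ A}.indicator (1 : ℂ → ENNReal) (Complex.polarCoord.symm p)) =
      ∫⁻ p in polarCoord.target, R.indicator (fun r => ENNReal.ofReal r) p.1 *
        A.indicator (1 : ℝ → ENNReal) p.2 := by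
    refine setLIntegral_congr_fun polarCoord.open_target.measurableSet fun p hp => ?_
    have h2 : Complex.polarCoord (Complex.polarCoord.symm p) = p :=
      Complex.polarCoord.right_inv hp
    rw [Complex.polarCoord_apply, Prod.ext_iff] at h2
    obtain ⟨h3, h4⟩ := h2
    simp only at h3 h4
    by_cases hr : p.1 ∈ R <;> by_cases ha : p.2 ∈ A <;>
      simp [indicator, h3, h4, hr, ha, -Complex.polarCoord_symm_apply]
  rw [h1, polarCoord_target, Measure.volume_eq_prod, ← Measure.prod_restrict,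
    lintegral_prod_mul ((ENNReal.measurable_ofReal.indicator hR).aemeasurable)
      ((measurable_one.indicator hA).aemeasurable),
    lintegral_indicator hR, lintegral_indicator_one hA, Measure.restrict_restrict hR,
    Measure.restrict_apply hA]

lemma rad {s t : ℝ} (hs : 0 ≤ s) (h : s ≤ t) :
    ∫⁻ r in Ioc s t, ENNReal.ofReal r = ENNReal.ofReal ((t ^ 2 - s ^ 2) / 2) := by
  rw [← ofReal_integral_eq_lintegral_ofReal (f := fun r : ℝ => r)
    (continuous_id.integrableOn_Icc.mono_set Ioc_subset_Icc_self)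
    ((ae_restrict_iff' measurableSet_Ioc).2 (ae_of_all _ fun r hr => hs.trans hr.1.le)),
    ← intervalIntegral.integral_of_le h, integral_id]

/-- open annular sector -/
def Sec (s t α β : ℝ) : Set ℂ := {x | ‖x‖ ∈ Ioo s t ∧ x.arg ∈ Ioo α β}

lemma meas_sec (s t α β : ℝ) : MeasurableSet (Sec s t α β) :=
  meas_pol measurableSet_Ioo measurableSet_Ioo

lemma ar_sec {s t α β : ℝ} (hs : 0 ≤ s) (h : s ≤ t)
    (hab : α < β → -Real.pi ≤ α ∧ β ≤ Real.pi) :
    ar (Sec s t α β) = (t ^ 2 - s ^ 2) / 2 * max 0 (β - α) := by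
  have h1 : Ioo s t ∩ Ioi 0 = Ioo s t := inter_eq_left.2 fun r hr => hs.trans_lt hr.1
  have h2 : Ioo α β ∩ Ioo (-Real.pi) Real.pi = Ioo α β :=
    inter_eq_left.2 fun r hr => by
      have := hab (hr.1.trans hr.2)
      exact ⟨this.1.trans_lt hr.1, hr.2.trans_le this.2⟩
  have h3 : 0 ≤ (t ^ 2 - s ^ 2) / 2 := by nlinarith
  rw [ar, measureReal_def, Sec, vol_pol measurableSet_Ioo measurableSet_Ioo, h1, h2,
    setLIntegral_congr Ioo_ae_eq_Ioc, rad hs h, Real.volume_Ioo, ENNReal.toReal_mul,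
    ENNReal.toReal_ofReal h3, ENNReal.toReal_ofReal', max_comm]

lemma part1 (Y : Set ℂ) (n : ℕ) (t α β : ℕ → ℝ) (hY : IsBounded Y) (h0 : 0 ≤ t 0)
    (ht : Monotone t) (hab : ∀ i < n, α i < β i → -Real.pi ≤ α i ∧ β i ≤ Real.pi)
    (hin : ∀ i < n, ∀ s φ : ℝ, t i < s → s < t (i + 1) → α i < φ → φ < β i →
      (s : ℂ) * Complex.exp (φ * Complex.I) ∈ Y) :
    ∑ i ∈ Finset.range n, (t (i + 1) ^ 2 - t i ^ 2) / 2 * max 0 (β i - α i) ≤ ar Y := by
  have hsub : (⋃ i ∈ Finset.range n, Sec (t i) (t (i + 1)) (α i) (β i)) ⊆ Y := by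
    intro x hx
    simp only [mem_iUnion, Finset.mem_range] at hx
    obtain ⟨i, hi, h1, h2⟩ := hx
    rw [← Complex.norm_mul_exp_arg_mul_I x]
    exact hin i hi _ _ h1.1 h1.2 h2.1 h2.2
  have hdis : (Finset.range n : Set ℕ).PairwiseDisjoint
      fun i => Sec (t i) (t (i + 1)) (α i) (β i) := by
    have key : ∀ i j, i < j → Disjoint (Sec (t i) (t (i + 1)) (α i) (β i))
        (Sec (t j) (t (j + 1)) (α j) (β j)) := fun i j hij =>
      disjoint_left.2 fun x hx hx' => by
        have := ht (Nat.succ_le_of_lt hij)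
        exact lt_irrefl _ ((hx.1.2.trans_le this).trans hx'.1.1)
    intro i _ j _ hij
    rcases lt_or_gt_of_ne hij with h | h
    · exact key i j h
    · exact (key j i h).symm
  refine le_trans (le_of_eq ?_) (ar_mono hsub hY)
  rw [ar, measureReal_biUnion_finset hdis (fun i _ => meas_sec _ _ _ _) fun i hi =>
    (hY.subset ((subset_biUnion_of_mem (u := fun i => Sec (t i) (t (i + 1)) (α i) (β i))
      hi).trans hsub)).measure_lt_top.ne]
  refine Finset.sum_congr rfl fun i hi => ?_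
  exact (ar_sec (h0.trans (ht (Nat.zero_le i))) (ht (Nat.le_succ i))
    (hab i (Finset.mem_range.1 hi))).symm

lemma part2 (s t α β : ℝ) (hs : 0 ≤ s) (h : s ≤ t) (hab : α ≤ β) :
    ar {x | s ≤ ‖x‖ ∧ ‖x‖ ≤ t ∧ α ≤ |x.arg| ∧ |x.arg| ≤ β} ≤ (t ^ 2 - s ^ 2) * (β - α) := by
  have h3 : 0 ≤ (t ^ 2 - s ^ 2) / 2 := by nlinarith
  have hsub : {x : ℂ | s ≤ ‖x‖ ∧ ‖x‖ ≤ t ∧ α ≤ |x.arg| ∧ |x.arg| ≤ β} ⊆
      {x : ℂ | ‖x‖ ∈ Icc s t ∧ x.arg ∈ Icc α β ∪ Icc (-β) (-α)} := by
    rintro x ⟨h1, h2, h4, h5⟩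
    refine ⟨⟨h1, h2⟩, ?_⟩
    rcases le_total 0 x.arg with h6 | h6
    · rw [abs_of_nonneg h6] at h4 h5
      exact Or.inl ⟨h4, h5⟩
    · rw [abs_of_nonpos h6] at h4 h5
      exact Or.inr ⟨by linarith, by linarith⟩
  have hb : volume {x : ℂ | ‖x‖ ∈ Icc s t ∧ x.arg ∈ Icc α β ∪ Icc (-β) (-α)} ≤
      ENNReal.ofReal ((t ^ 2 - s ^ 2) * (β - α)) := by
    rw [vol_pol measurableSet_Icc (measurableSet_Icc.union measurableSet_Icc)]
    have e1 : ∫⁻ r in Icc s t ∩ Ioi 0, ENNReal.ofReal r ≤ ENNReal.ofReal ((t ^ 2 - s ^ 2) / 2) := by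
      rw [← rad hs h, setLIntegral_congr Ioc_ae_eq_Icc]
      exact lintegral_mono_set inter_subset_left
    have e2 : volume ((Icc α β ∪ Icc (-β) (-α)) ∩ Ioo (-Real.pi) Real.pi) ≤
        ENNReal.ofReal (2 * (β - α)) := by
      refine (measure_mono inter_subset_left).trans ((measure_union_le _ _).trans (le_of_eq ?_))
      rw [Real.volume_Icc, Real.volume_Icc, ← ENNReal.ofReal_add (by linarith) (by linarith)]
      congr 1
      ring
    refine (mul_le_mul' e1 e2).trans (le_of_eq ?_)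
    rw [← ENNReal.ofReal_mul h3]
    congr 1
    ring
  rw [ar, measureReal_def]
  exact ENNReal.toReal_le_of_le_ofReal (by nlinarith) ((measure_mono hsub).trans hb)

lemma cres {d r : ℝ} (hd : 0 ≤ d) (hr : 0 ≤ r) :
    volume (closedBall (d : ℂ) r \ closedBall 0 r) ≤ ENNReal.ofReal (2 * r * d) := by
  have hm : MeasurableSet (closedBall (d : ℂ) r \ closedBall 0 r) :=
    measurableSet_closedBall.diff measurableSet_closedBall
  rw [← Complex.volume_preserving_equiv_real_prod.symm.measure_preimage hm.nullMeasurableSet,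
    Measure.volume_eq_prod,
    Measure.prod_apply_symm (Complex.measurableEquivRealProd.symm.measurable hm)]
  have key : ∀ y : ℝ, volume ((fun x : ℝ => (x, y)) ⁻¹'
      (Complex.measurableEquivRealProd.symm ⁻¹' (closedBall (d : ℂ) r \ closedBall 0 r))) ≤
      (Icc (-r) r).indicator (fun _ => ENNReal.ofReal d) y := by
    intro y
    have hx : ∀ x ∈ (fun x : ℝ => (x, y)) ⁻¹'
        (Complex.measurableEquivRealProd.symm ⁻¹' (closedBall (d : ℂ) r \ closedBall 0 r)),
        (x - d) ^ 2 + y ^ 2 ≤ r ^ 2 ∧ r ^ 2 < x ^ 2 + y ^ 2 := by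
      intro x hx
      obtain ⟨h1, h2⟩ := hx
      simp only [Complex.measurableEquivRealProd_symm_apply, mem_closedBall, dist_zero_right,
        not_le, Complex.dist_eq] at h1 h2
      have a1 := pow_le_pow_left₀ (norm_nonneg _) h1 2
      have a2 := pow_lt_pow_left₀ h2 hr two_ne_zero
      rw [Complex.sq_norm, Complex.normSq_apply] at a1 a2
      simp only [Complex.sub_re, Complex.sub_im, Complex.ofReal_re, Complex.ofReal_im,
        sub_zero] at a1 a2
      constructor <;> nlinarith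
    by_cases hy : y ∈ Icc (-r) r
    · rw [indicator_of_mem hy]
      have hs : 0 ≤ r ^ 2 - y ^ 2 := by nlinarith [hy.1, hy.2]
      refine (measure_mono (t := Ioc (√(r ^ 2 - y ^ 2)) (√(r ^ 2 - y ^ 2) + d))
        fun x h => ?_).trans (by simp)
      obtain ⟨h1, h2⟩ := hx x h
      have b1 : |x - d| ≤ √(r ^ 2 - y ^ 2) := Real.abs_le_sqrt (by linarith)
      have b2 : √(r ^ 2 - y ^ 2) < |x| := by
        rw [← Real.sqrt_sq_eq_abs]
        exact Real.sqrt_lt_sqrt hs (by linarith)
      rw [abs_le] at b1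
      refine ⟨?_, by linarith [b1.2]⟩
      rcases lt_abs.1 b2 with h3 | h3
      · exact h3
      · linarith [b1.1]
    · rw [indicator_of_notMem hy]
      refine (measure_mono (t := ∅) fun x h => hy ?_).trans (by simp)
      obtain ⟨h1, -⟩ := hx x h
      exact abs_le_of_sq_le_sq' (by nlinarith [sq_nonneg (x - d)]) hr
  refine (lintegral_mono key).trans (le_of_eq ?_)
  rw [lintegral_indicator measurableSet_Icc, setLIntegral_const, Real.volume_Icc,
    ← ENNReal.ofReal_mul hd]
  congr 1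
  ring

lemma part3 (z y : ℂ) (r : ℝ) (hr : 0 ≤ r) :
    ar (closedBall z r \ closedBall y r) ≤ 2 * r * dist z y := by
  have hm : MeasurableSet (closedBall z r \ closedBall y r) :=
    measurableSet_closedBall.diff measurableSet_closedBall
  set c : Circle := Circle.exp (z - y).arg with hc
  have hp : MeasurePreserving (fun x : ℂ => y + rotation c x) volume volume :=
    (measurePreserving_add_left volume y).comp (rotation c).measurePreserving
  have hz : z = y + rotation c ((dist z y : ℝ) : ℂ) := by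
    rw [rotation_apply, hc, Circle.coe_exp, Complex.dist_eq, mul_comm,
      Complex.norm_mul_exp_arg_mul_I]
    ring
  have hpre : (fun x : ℂ => y + rotation c x) ⁻¹' (closedBall z r \ closedBall y r) =
      closedBall ((dist z y : ℝ) : ℂ) r \ closedBall 0 r := by
    ext x
    have e1 : dist (y + rotation c x) z = dist x ((dist z y : ℝ) : ℂ) := by
      conv_lhs => rw [hz]
      rw [dist_add_left, (rotation c).dist_map]
    have e2 : dist (y + rotation c x) y = dist x 0 := by
      conv_lhs => rw [show dist (y + rotation c x) y = dist (y + rotation c x) (y + rotation c 0)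
        by simp]
      rw [dist_add_left, (rotation c).dist_map]
    simp only [mem_preimage, mem_sdiff, mem_closedBall, e1, e2]
  rw [ar, measureReal_def, ← hp.measure_preimage hm.nullMeasurableSet, hpre]
  exact ENNReal.toReal_le_of_le_ofReal (by positivity) (cres dist_nonneg hr)

end AreaP

theorem sarea : SArea :=
  ⟨AreaP.part1, fun s t α β hs h _ hab => AreaP.part2 s t α β hs h hab, AreaP.part3⟩

end Pool.Agent.P.MP_50fd71_pr
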