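import Mathlib

/-!
Nearest neighbour percolation: definitions, and the steps of the proof as propositions.
-/

open MeasureTheory ProbabilityTheory Set Metric Bornology

noncomputable section

namespace Pool.Agent.P.MP_50fd71_pr

/-- number of points of `S` in `A` -/
def cnt (S A : Set ℂ) : ℕ := (S ∩ A).ncard

/-- bounded measurable set -/
def Ok (A : Set ℂ) : Prop := MeasurableSet A ∧ IsBounded A

/-- area -/
def ar (A : Set ℂ) : ℝ := volume.real A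

/-- locally finite -/
def LF (S : Set ℂ) : Prop := ∀ A, IsBounded A → (S ∩ A).Finite

/-- Poisson process of intensity one -/
structure Poi {Ω : Type} [MeasurableSpace Ω] (μ : Measure Ω) (P : Ω → Set ℂ) : Prop where
  prob : IsProbabilityMeasure μ
  fin : ∀ ω, LF (P ω)
  meas : ∀ A, Ok A → Measurable fun ω => cnt (P ω) A
  law : ∀ A, Ok A → ∀ n : ℕ,
    μ.real {ω | cnt (P ω) A = n} = Real.exp (-ar A) * ar A ^ n / n.factorial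
  ind : ∀ (n : ℕ) (A : Fin n → Set ℂ), (∀ i, Ok (A i)) → Pairwise (Function.onFun Disjoint A) →
    iIndepFun (fun i ω => cnt (P ω) (A i)) μ

/-- events determined by the counts inside `W` -/
@[instance_reducible] def sig {Ω : Type} (P : Ω → Set ℂ) (W : Set ℂ) : MeasurableSpace Ω :=
  ⨆ A ∈ {A | Ok A ∧ A ⊆ W}, MeasurableSpace.comap (fun ω => cnt (P ω) A) ⊤

/-- the property `E` is covered by an event of probability at most `p` that is local to `W` -/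
def UB (W : Set ℂ) (E : Set ℂ → Prop) (p : ℝ) : Prop :=
  ∀ (Ω : Type) [MeasurableSpace Ω] (μ : Measure Ω) (P : Ω → Set ℂ), Poi μ P →
    ∃ G : Set Ω, MeasurableSet[sig P W] G ∧ μ.real G ≤ p ∧ ∀ ω, E (P ω) → ω ∈ G

/-- fewer than `k` points are strictly closer to `x` than `y` is -/
def Near (k : ℕ) (S : Set ℂ) (x y : ℂ) : Prop :=
  {w | w ∈ S ∧ w ≠ x ∧ dist x w < dist x y}.ncard < k

/-- edge of the nearest neighbour graph -/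
def Adj (k : ℕ) (S : Set ℂ) (x y : ℂ) : Prop :=
  x ≠ y ∧ x ∈ S ∧ y ∈ S ∧ (Near k S x y ∨ Near k S y x)

/-- `C` is a union of components -/
def Cl (k : ℕ) (S C : Set ℂ) : Prop := C ⊆ S ∧ ∀ x ∈ C, ∀ y, Adj k S x y → y ∈ C

/-- `a` points in `A` and `b` other points in `B` -/
def Two (S A : Set ℂ) (a : ℕ) (B : Set ℂ) (b : ℕ) : Prop :=
  ∃ X Y : Finset ℂ, Disjoint X Y ∧ X.card = a ∧ Y.card = b ∧ ↑X ⊆ S ∩ A ∧ ↑Y ⊆ S ∩ B

/-- Poisson tail -/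
def T (k : ℕ) (x : ℝ) : ℝ := 1 - Real.exp (-x) * ∑ j ∈ Finset.range k, x ^ j / j.factorial

/-- hexagonal norm -/
def hn (p : ℤ × ℤ) : ℤ := max |p.1| (max |p.2| |p.1 + p.2|)

/-- a cluster meets the disc around `z` and misses the disc around `y`, or the latter is empty -/
def Bad (k : ℕ) (r : ℝ) (z y : ℂ) (S : Set ℂ) : Prop :=
  S ∩ closedBall y r = ∅ ∨ ∃ C, Cl k S C ∧ Disjoint C (closedBall y r) ∧ ∃ v ∈ C, v ∈ closedBall z r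

lemma sig_le {Ω : Type} [m : MeasurableSpace Ω] {μ : Measure Ω} {P : Ω → Set ℂ} (h : Poi μ P)
    (W : Set ℂ) : sig P W ≤ m :=
  iSup₂_le fun A hA => (h.meas A hA.1).comap_le

lemma sig_mono {Ω : Type} (P : Ω → Set ℂ) {W W' : Set ℂ} (h : W ⊆ W') : sig P W ≤ sig P W' :=
  iSup₂_le fun A hA => le_iSup₂_of_le A ⟨hA.1, hA.2.trans h⟩ le_rfl

lemma meas_cnt {Ω : Type} (P : Ω → Set ℂ) {A W : Set ℂ} (hA : Ok A) (h : A ⊆ W) :
    Measurable[sig P W] fun ω => cnt (P ω) A :=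
  Measurable.of_comap_le (le_iSup₂_of_le (f := fun A (_ : A ∈ {A | Ok A ∧ A ⊆ W}) =>
    MeasurableSpace.comap (fun ω => cnt (P ω) A) ⊤) A ⟨hA, h⟩ le_rfl)

lemma UB.mono {W W' : Set ℂ} {E E' : Set ℂ → Prop} {p p' : ℝ} (h : UB W E p) (hW : W ⊆ W')
    (hE : ∀ S, LF S → E' S → E S) (hp : p ≤ p') : UB W' E' p' := by
  intro Ω _ μ P hP
  obtain ⟨G, h1, h2, h3⟩ := h Ω μ P hP
  exact ⟨G, sig_mono P hW G h1, h2.trans hp, fun ω hω => h3 ω (hE _ (hP.fin ω) hω)⟩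

lemma UB.or {W : Set ℂ} {E E' : Set ℂ → Prop} {p p' : ℝ} (h : UB W E p) (h' : UB W E' p') :
    UB W (fun S => E S ∨ E' S) (p + p') := by
  intro Ω _ μ P hP
  obtain ⟨G, h1, h2, h3⟩ := h Ω μ P hP
  obtain ⟨G', h1', h2', h3'⟩ := h' Ω μ P hP
  exact ⟨G ∪ G', h1.union h1', (measureReal_union_le _ _).trans (add_le_add h2 h2'),
    fun ω hω => hω.imp (h3 ω) (h3' ω)⟩

lemma ub_exists {ι : Type*} (s : Finset ι) {W : Set ℂ} {E : ι → Set ℂ → Prop} {p : ι → ℝ}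
    (h : ∀ i ∈ s, UB W (E i) (p i)) : UB W (fun S => ∃ i ∈ s, E i S) (∑ i ∈ s, p i) := by
  classical
  induction s using Finset.induction_on with
  | empty => exact fun Ω _ μ P _ => ⟨∅, @MeasurableSet.empty _ (sig P W), by simp, by simp⟩
  | insert a s ha ih =>
    rw [Finset.sum_insert ha]
    exact ((h a (by simp)).or (ih fun i hi => h i (by simp [hi]))).mono le_rfl
      (fun S _ hS => by simpa using hS) le_rfl

lemma Ok.diff {A B : Set ℂ} (h : Ok A) (hB : MeasurableSet B) : Ok (A \ B) :=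
  ⟨h.1.diff hB, h.2.subset sdiff_subset⟩

lemma Ok.inter {A B : Set ℂ} (h : Ok A) (hB : MeasurableSet B) : Ok (A ∩ B) :=
  ⟨h.1.inter hB, h.2.subset inter_subset_left⟩

lemma Ok.union {A B : Set ℂ} (h : Ok A) (hB : Ok B) : Ok (A ∪ B) :=
  ⟨h.1.union hB.1, h.2.union hB.2⟩

lemma ok_ball (x : ℂ) (r : ℝ) : Ok (ball x r) := ⟨measurableSet_ball, isBounded_ball⟩

lemma ok_closedBall (x : ℂ) (r : ℝ) : Ok (closedBall x r) :=
  ⟨measurableSet_closedBall, isBounded_closedBall⟩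

lemma ar_nonneg (A : Set ℂ) : 0 ≤ ar A := measureReal_nonneg

lemma ar_mono {A B : Set ℂ} (h : A ⊆ B) (hB : IsBounded B) : ar A ≤ ar B :=
  measureReal_mono h hB.measure_lt_top.ne

lemma ar_union_le (A B : Set ℂ) : ar (A ∪ B) ≤ ar A + ar B := measureReal_union_le A B

lemma ar_diff {A B : Set ℂ} (hA : IsBounded A) (hB : MeasurableSet B) :
    ar (A \ B) = ar A - ar (A ∩ B) := by
  have := measureReal_sdiff_add_inter (μ := volume) (s := A) hB hA.measure_lt_top.ne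
  unfold ar
  linarith

lemma ar_ball (x : ℂ) {r : ℝ} (hr : 0 ≤ r) : ar (ball x r) = Real.pi * r ^ 2 := by
  simp [ar, measureReal_def, ENNReal.toReal_ofReal hr, mul_comm]

lemma ar_closedBall (x : ℂ) {r : ℝ} (hr : 0 ≤ r) : ar (closedBall x r) = Real.pi * r ^ 2 := by
  simp [ar, measureReal_def, ENNReal.toReal_ofReal hr, mul_comm]

/-- Independence of disjoint regions. -/
def SAnd : Prop :=
  ∀ (W W' : Set ℂ) (E E' : Set ℂ → Prop) (p p' : ℝ), Disjoint W W' → UB W E p → UB W' E' p' →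
    UB (W ∪ W') (fun S => E S ∧ E' S) (p * p')

/-- No point, one point, two points. -/
def SSmall : Prop :=
  ∀ A, Ok A → UB A (fun S => S ∩ A = ∅) (Real.exp (-ar A)) ∧
    UB A (fun S => (S ∩ A).Nonempty) (ar A) ∧ UB A (fun S => (S ∩ A).Nontrivial) (ar A ^ 2)

/-- Monotonicity and submultiplicativity of the Poisson tail. -/
def STail : Prop :=
  (∀ k x, 0 ≤ x → 0 ≤ T k x) ∧ (∀ k x y, 0 ≤ x → x ≤ y → T k x ≤ T k y) ∧
    ∀ a b x, 0 ≤ x → T (a + b) x ≤ T a x * T b x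

/-- Disjoint occurrence. -/
def STwo : Prop :=
  ∀ A B a b, Ok A → Ok B → UB (A ∪ B) (fun S => Two S A a B b) (T a (ar A) * T b (ar B))

/-- Summation over the position of a point. -/
def SPiece : Prop :=
  ∀ (W U : Set ℂ) (η p : ℝ) (B : Set ℂ → ℂ → Prop), MeasurableSet W → Ok U → U ⊆ W → 0 < η →
    0 ≤ p → (∀ x₀ ∈ U, UB (W \ closedBall x₀ η)
      (fun S => ∃ x ∈ U, S ∩ W ∩ closedBall x₀ η = {x} ∧ B S x) p) →
    UB W (fun S => ∃ x ∈ S ∩ U, B S x) (ar U * (p + 5 * η ^ 2))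

/-- Invariance under rigid motions. -/
def SMove : Prop :=
  ∀ (a c : ℂ), ‖c‖ = 1 → (∀ (W : Set ℂ) (E : Set ℂ → Prop) (p : ℝ), UB W E p →
      UB ((fun x => a + c * x) '' W) (fun S => E ((fun x => a + c * x) ⁻¹' S)) p) ∧
    ∀ (k : ℕ) (S C : Set ℂ), Cl k S C →
      Cl k ((fun x => a + c * x) ⁻¹' S) ((fun x => a + c * x) ⁻¹' C)

/-- Areas: lower and upper bounds by annular sectors, and the crescent. -/
def SArea : Prop :=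
  (∀ (Y : Set ℂ) (n : ℕ) (t α β : ℕ → ℝ), IsBounded Y → 0 ≤ t 0 → Monotone t →
      (∀ i < n, α i < β i → -Real.pi ≤ α i ∧ β i ≤ Real.pi) →
      (∀ i < n, ∀ s φ : ℝ, t i < s → s < t (i + 1) → α i < φ → φ < β i →
        (s : ℂ) * Complex.exp (φ * Complex.I) ∈ Y) →
      ∑ i ∈ Finset.range n, (t (i + 1) ^ 2 - t i ^ 2) / 2 * max 0 (β i - α i) ≤ ar Y) ∧
    (∀ s t α β : ℝ, 0 ≤ s → s ≤ t → 0 ≤ α → α ≤ β →
      ar {x | s ≤ ‖x‖ ∧ ‖x‖ ≤ t ∧ α ≤ |x.arg| ∧ |x.arg| ≤ β} ≤ (t ^ 2 - s ^ 2) * (β - α)) ∧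
    ∀ (z y : ℂ) (r : ℝ), 0 ≤ r → ar (closedBall z r \ closedBall y r) ≤ 2 * r * dist z y

/-- Two points in different clusters have `k` close points each. -/
def SCore : Prop :=
  ∀ (k : ℕ) (S C : Set ℂ) (v u : ℂ), LF S → Cl k S C → v ∈ C → u ∈ S → u ∉ C →
    ∃ X Y : Finset ℂ, X.card = k ∧ Y.card = k ∧ ↑X ⊆ (C ∩ ball v (dist v u)) \ {v} ∧
      ↑Y ⊆ ((S \ C) ∩ ball u (dist v u)) \ {u}

/-- Chains of well separated boundary edges on the triangular lattice. -/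
def SLat : Prop :=
  ∀ m : ℕ, 1 ≤ m → ∃ Ch : ℕ → ℕ → Finset (List ((ℤ × ℤ) × (ℤ × ℤ))),
    (∀ j n, (Ch j n).card ≤ 3 * (4 * m + 1) ^ n) ∧
    (∀ j n, ∀ l ∈ Ch j n, l.length = n + 1 ∧ (∀ e ∈ l, hn (e.2 - e.1) = 1) ∧
      l.Pairwise fun e f => (m : ℤ) ≤ hn (e.2 - f.2)) ∧
    ∀ (B : Set (ℤ × ℤ)) (M : ℕ), B.Finite → (∀ z, hn z ≤ M → z ∈ B) →
      ∃ j, M ≤ j ∧ ∃ l ∈ Ch j (j / m), ∀ e ∈ l, e.1 ∈ B ∧ e.2 ∉ B

/-- the disc through the origin -/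
def DD (r : ℝ) : Set ℂ := closedBall (r : ℂ) r

/-- the only point in `O` belongs to a cluster that misses the disc -/
def Ev (k : ℕ) (r w : ℝ) (O S : Set ℂ) : Prop :=
  ∃ v, S ∩ ball (r : ℂ) w ∩ O = {v} ∧ ∃ C, Cl k S C ∧ v ∈ C ∧ Disjoint C (DD r)

/-- The local estimate in the standard position. -/
def Loc (k : ℕ) (r w η p : ℝ) : Prop :=
  ∀ O : Set ℂ, MeasurableSet O → O ⊆ closedBall 0 η → UB (ball (r : ℂ) w \ O) (Ev k r w O) p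

/-- a pair of annular sectors -/
def Box (ρ₁ ρ₂ θ₁ θ₂ : ℝ) : Set ℂ :=
  {x | ρ₁ ≤ ‖x‖ ∧ ‖x‖ ≤ ρ₂ ∧ θ₁ ≤ |x.arg| ∧ |x.arg| ≤ θ₂}

/-- The contribution of one box of positions of the nearest point of the disc. -/
def SBox : Prop :=
  ∀ (k : ℕ) (r w η : ℝ) (O : Set ℂ) (ρ₁ ρ₂ θ₁ θ₂ l a b : ℝ), MeasurableSet O →
    O ⊆ closedBall 0 η → 0 < η → 0 < r → 0 ≤ ρ₁ → ρ₁ ≤ ρ₂ → 0 ≤ θ₁ → θ₁ ≤ θ₂ →
    r + ρ₂ + 2 * η ≤ w → l ≤ max 0 (ar (DD r ∩ ball 0 ρ₁) - 7 * η ^ 2) →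
    ar (ball 0 (ρ₂ + 2 * η) \ DD r) ≤ a → 0 ≤ b →
    (∀ u ∈ Box ρ₁ ρ₂ θ₁ θ₂, ar (ball u (ρ₂ + 2 * η) \ (DD r ∩ ball 0 ρ₁)) ≤ b) →
    UB (ball (r : ℂ) w \ O) (fun S => Ev k r w O S ∧ S ∩ (DD r ∩ ball 0 ρ₁) = ∅ ∧
        (S ∩ (DD r ∩ Box ρ₁ ρ₂ θ₁ θ₂)).Nonempty)
      ((ρ₂ ^ 2 - ρ₁ ^ 2) * (θ₂ - θ₁) * (Real.exp (-l) * (T k a * T k b) + 5 * η ^ 2))

/-- Summation over the boxes. -/
def SLoc : Prop :=
  ∀ (k n m : ℕ) (r w η : ℝ) (ρ l a : ℕ → ℝ) (θ b : ℕ → ℕ → ℝ), 0 < η → 0 < r → ρ 0 = 0 →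
    Monotone ρ → (∀ i, θ i 0 = 0) → (∀ i, Monotone (θ i)) →
    (∀ i < n, Real.pi / 2 - ρ i / (2 * r) ≤ θ i m) → r + ρ n + 2 * η ≤ w →
    (∀ i ≤ n, l i ≤ max 0 (ar (DD r ∩ ball 0 (ρ i)) - 7 * η ^ 2)) →
    (∀ i < n, ar (ball 0 (ρ (i + 1) + 2 * η) \ DD r) ≤ a i) → (∀ i < n, ∀ c < m, 0 ≤ b i c) →
    (∀ i < n, ∀ c < m, ∀ u ∈ Box (ρ i) (ρ (i + 1)) (θ i c) (θ i (c + 1)),
      ar (ball u (ρ (i + 1) + 2 * η) \ (DD r ∩ ball 0 (ρ i))) ≤ b i c) →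
    Loc k r w η (Real.exp (-l n) + ∑ i ∈ Finset.range n, ∑ c ∈ Finset.range m,
      (ρ (i + 1) ^ 2 - ρ i ^ 2) * (θ i (c + 1) - θ i c) *
        (Real.exp (-l i) * (T k (a i) * T k (b i c)) + 5 * η ^ 2))

/-- lower bound for the arccosine -/
def acl (x : ℝ) : ℝ := 15707 / 10000 - (x + x ^ 3 / 6 + x ^ 5 / 8)

/-- Lower bounds for the areas of the two lenses. -/
def SEst : Prop :=
  (∀ (r ρ : ℝ) (n : ℕ) (b : ℕ → ℝ), 0 < r → 0 ≤ ρ → ρ ≤ r → 0 < n →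
      (∀ i < n, b i ≤ acl (ρ * (i + 1) / (2 * r * n))) →
      ∑ i ∈ Finset.range n, ρ ^ 2 * (2 * i + 1) / n ^ 2 * b i ≤ ar (DD r ∩ ball 0 ρ)) ∧
    ∀ (r ρ₁ ρ₂ θ₁ θ₂ R : ℝ) (n : ℕ) (b₁ b₂ : ℕ → ℝ), 0 < r → 0 ≤ ρ₁ → ρ₁ ≤ r → ρ₂ < R → 0 < n →
      (∀ i < n, b₁ i ≤ acl ((i + 1) / (2 * n))) →
      (∀ i < n, b₂ i ≤ acl (ρ₁ * (i + 1) / (2 * r * n))) → ∀ u ∈ Box ρ₁ ρ₂ θ₁ θ₂,
      ∑ i ∈ Finset.range n, ρ₁ ^ 2 * (2 * i + 1) / (2 * n ^ 2) *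
          max 0 (min (b₁ i) (b₂ i - θ₂) + min (b₁ i) (b₂ i + θ₁)) ≤
        ar (ball u R ∩ (DD r ∩ ball 0 ρ₁))

/-- From the standard position to a boundary edge. -/
def SEdge : Prop :=
  ∀ (k : ℕ) (r w ε p : ℝ), 0 < r → 0 < ε → r + ε < w → 0 ≤ p → Loc k r w (2 * ε) p →
    ∀ z y : ℂ, dist z y = ε → UB (ball y w) (Bad k r z y)
      (Real.exp (-(Real.pi * r ^ 2)) + 2 * r * ε * (p + 5 * ε ^ 2))

/-- The Peierls argument. -/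
def SPei : Prop :=
  ∀ (k m : ℕ) (r w ε q : ℝ), 1 ≤ m → 0 < ε → 4 * w ≤ √3 * ε * m → 0 ≤ q → (4 * m + 1) * q < 1 →
    (∀ z y : ℂ, dist z y = ε → UB (ball y w) (Bad k r z y) q) →
    ∀ (Ω : Type) [MeasurableSpace Ω] (μ : Measure Ω) (P : Ω → Set ℂ), Poi μ P →
      ∀ᵐ ω ∂μ, ∃ x, {y | Relation.ReflTransGen (Adj k (P ω)) x y}.Infinite

end Pool.Agent.P.MP_50fd71_pr
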