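import Pool.Agent.P.MP_50fd71_pr.Basic

/-!
The contribution of one box of positions of the nearest point of the disc.
-/

open MeasureTheory ProbabilityTheory Set Metric Bornology

noncomputable section

namespace Pool.Agent.P.MP_50fd71_pr

namespace BoxP

lemma meas_box (ρ₁ ρ₂ θ₁ θ₂ : ℝ) : MeasurableSet (Box ρ₁ ρ₂ θ₁ θ₂) := by
  have h : Measurable fun x : ℂ => |x.arg| := continuous_abs.measurable.comp Complex.measurable_arg
  exact (measurableSet_le measurable_const measurable_norm).inter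
    ((measurableSet_le measurable_norm measurable_const).inter
      ((measurableSet_le measurable_const h).inter (measurableSet_le h measurable_const)))

lemma bdd_box (ρ₁ ρ₂ θ₁ θ₂ : ℝ) : IsBounded (Box ρ₁ ρ₂ θ₁ θ₂) :=
  (isBounded_closedBall (x := (0 : ℂ)) (r := ρ₂)).subset fun _ hx =>
    mem_closedBall_zero_iff.mpr hx.2.1

lemma ok_DD (r : ℝ) : Ok (DD r) := ok_closedBall _ _

/-- the estimate for one position of the nearest point -/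
lemma one (h1 : SAnd) (h2 : SSmall) (h3 : STail) (h4 : STwo) (h7 : SCore)
    (k : ℕ) (r w η : ℝ) (O : Set ℂ) (ρ₁ ρ₂ l a b : ℝ) (hO : MeasurableSet O)
    (hOη : O ⊆ closedBall 0 η) (hη : 0 < η) (hr : 0 < r) (hρ : 0 ≤ ρ₂)
    (hw : r + ρ₂ + 2 * η ≤ w) (hl : l ≤ max 0 (ar (DD r ∩ ball 0 ρ₁) - 7 * η ^ 2))
    (ha : ar (ball 0 (ρ₂ + 2 * η) \ DD r) ≤ a) (U : Set ℂ)
    (hU : ∀ u ∈ U, u ∈ DD r ∧ ‖u‖ ≤ ρ₂) (u₀ : ℂ) (hu₀ : u₀ ∈ DD r)
    (hb : ar (ball u₀ (ρ₂ + 2 * η) \ (DD r ∩ ball 0 ρ₁)) ≤ b) :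
    UB ((ball (r : ℂ) w \ O) \ closedBall u₀ η)
      (fun S => ∃ x ∈ U, S ∩ (ball (r : ℂ) w \ O) ∩ closedBall u₀ η = {x} ∧
        (Ev k r w O S ∧ S ∩ (DD r ∩ ball 0 ρ₁) = ∅))
      (Real.exp (-l) * (T k a * T k b)) := by
  set L : Set ℂ := DD r ∩ ball 0 ρ₁ with hL
  set O₂ : Set ℂ := closedBall u₀ η with hO₂
  set R : ℝ := ρ₂ + 2 * η with hR
  have okL : Ok L := (ok_DD r).inter measurableSet_ball
  have mO₂ : MeasurableSet O₂ := measurableSet_closedBall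
  have okE : Ok ((L \ O) \ O₂) := (okL.diff hO).diff mO₂
  have okA : Ok (((ball 0 R \ DD r) \ O) \ O₂) :=
    (((ok_ball 0 R).diff (ok_DD r).1).diff hO).diff mO₂
  have okB : Ok (((ball u₀ R \ L) \ O) \ O₂) :=
    (((ok_ball u₀ R).diff okL.1).diff hO).diff mO₂
  have inD : ∀ x ∈ DD r, x ∈ ball (r : ℂ) w := by
    intro x hx
    have : dist x (r : ℂ) ≤ r := hx
    exact mem_ball.mpr (by linarith)
  have inA : ∀ x ∈ ball (0 : ℂ) R, x ∈ ball (r : ℂ) w := by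
    intro x hx
    have e1 : dist x 0 < R := hx
    have e2 : dist (0 : ℂ) (r : ℂ) = r := by
      rw [dist_comm, dist_zero_right, Complex.norm_real, Real.norm_of_nonneg hr.le]
    have := dist_triangle x 0 (r : ℂ)
    exact mem_ball.mpr (by linarith)
  have inB : ∀ x ∈ ball u₀ R, x ∈ ball (r : ℂ) w := by
    intro x hx
    have e1 : dist x u₀ < R := hx
    have e2 : dist u₀ (r : ℂ) ≤ r := hu₀
    have := dist_triangle x u₀ (r : ℂ)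
    exact mem_ball.mpr (by linarith)
  have hdisj : Disjoint ((L \ O) \ O₂)
      ((((ball 0 R \ DD r) \ O) \ O₂) ∪ (((ball u₀ R \ L) \ O) \ O₂)) := by
    refine Set.disjoint_left.mpr fun x hx hx' => ?_
    rcases hx' with h | h
    · exact h.1.1.2 hx.1.1.1
    · exact h.1.1.2 hx.1.1
  refine (h1 _ _ _ _ _ _ hdisj (h2 _ okE).1 (h4 _ _ k k okA okB)).mono ?_ ?_ ?_
  · rintro x (h | h | h)
    · exact ⟨⟨inD x h.1.1.1, h.1.2⟩, h.2⟩
    · exact ⟨⟨inA x h.1.1.1, h.1.2⟩, h.2⟩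
    · exact ⟨⟨inB x h.1.1.1, h.1.2⟩, h.2⟩
  · rintro S hS ⟨u, huU, hu, ⟨v, hv, C, hC, hvC, hCD⟩, hSL⟩
    have hu' : u ∈ S ∩ (ball (r : ℂ) w \ O) ∩ O₂ := by rw [hu]; rfl
    have hv' : v ∈ S ∩ ball (r : ℂ) w ∩ O := by rw [hv]; rfl
    have huC : u ∉ C := fun h => Set.disjoint_left.mp hCD h (hU u huU).1
    have hnL : ∀ x ∈ S, x ∉ L := fun x hx hx' => by
      have : x ∈ S ∩ L := ⟨hx, hx'⟩
      rw [hSL] at this
      exact this
    have hnO : ∀ x ∈ S, x ∈ ball (r : ℂ) w → x ≠ v → x ∉ O := fun x hx hx' hne hxO => by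
      have : x ∈ S ∩ ball (r : ℂ) w ∩ O := ⟨⟨hx, hx'⟩, hxO⟩
      rw [hv] at this
      exact hne this
    have hnO₂ : ∀ x ∈ S, x ∈ ball (r : ℂ) w → x ∉ O → x ≠ u → x ∉ O₂ :=
      fun x hx hx' hxO hne hxO₂ => by
        have : x ∈ S ∩ (ball (r : ℂ) w \ O) ∩ O₂ := ⟨⟨hx, hx', hxO⟩, hxO₂⟩
        rw [hu] at this
        exact hne this
    have dv : dist v 0 ≤ η := hOη hv'.2
    have du : dist 0 u ≤ ρ₂ := by
      rw [dist_comm, dist_zero_right]; exact (hU u huU).2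
    have du₀ : dist u u₀ ≤ η := hu'.2
    have dvu : dist v u ≤ η + ρ₂ := (dist_triangle v 0 u).trans (add_le_add dv du)
    refine ⟨Set.eq_empty_of_forall_notMem fun x hx => hnL x hx.1 hx.2.1.1, ?_⟩
    obtain ⟨X, Y, hX, hY, sX, sY⟩ := h7 k S C v u hS hC hvC hu'.1.1 huC
    refine ⟨X, Y, Finset.disjoint_left.mpr fun x hx hy => (sY hy).1.1.2 (sX hx).1.1, hX, hY,
      fun x hx => ?_, fun y hy => ?_⟩
    · obtain ⟨⟨xC, xb⟩, xv⟩ := sX hx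
      have xS : x ∈ S := hC.1 xC
      have e1 : dist x v < dist v u := xb
      have xR : x ∈ ball (0 : ℂ) R := by
        have := dist_triangle x v 0
        exact mem_ball.mpr (by linarith)
      have xO := hnO x xS (inA x xR) xv
      exact ⟨xS, ⟨⟨xR, Set.disjoint_left.mp hCD xC⟩, xO⟩,
        hnO₂ x xS (inA x xR) xO fun h => huC (h ▸ xC)⟩
    · obtain ⟨⟨⟨yS, yC⟩, yb⟩, yu⟩ := sY hy
      have e1 : dist y u < dist v u := yb
      have yR : y ∈ ball u₀ R := by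
        have := dist_triangle y u u₀
        exact mem_ball.mpr (by linarith)
      have yO := hnO y yS (inB y yR) fun h => yC (h ▸ hvC)
      exact ⟨yS, ⟨⟨yR, hnL y yS⟩, yO⟩, hnO₂ y yS (inB y yR) yO yu⟩
  · have eE : l ≤ ar ((L \ O) \ O₂) := by
      refine hl.trans (max_le (ar_nonneg _) ?_)
      have s1 : L ⊆ ((L \ O) \ O₂) ∪ (closedBall 0 η ∪ O₂) := by
        intro x hx
        by_cases c1 : x ∈ O
        · exact Or.inr (Or.inl (hOη c1))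
        · by_cases c2 : x ∈ O₂
          · exact Or.inr (Or.inr c2)
          · exact Or.inl ⟨⟨hx, c1⟩, c2⟩
      have s2 := ar_mono s1 (okE.2.union (isBounded_closedBall.union isBounded_closedBall))
      have s3 := ar_union_le ((L \ O) \ O₂) (closedBall 0 η ∪ O₂)
      have s4 := ar_union_le (closedBall 0 η) O₂
      rw [hO₂, ar_closedBall _ hη.le, ar_closedBall _ hη.le] at s4
      have s5 : Real.pi * η ^ 2 ≤ 7 / 2 * η ^ 2 :=
        mul_le_mul_of_nonneg_right (by linarith [Real.pi_lt_d2]) (sq_nonneg η)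
      rw [← hO₂] at s4
      linarith
    have eA : ar (((ball 0 R \ DD r) \ O) \ O₂) ≤ a :=
      (ar_mono (sdiff_subset.trans sdiff_subset) (isBounded_ball.subset sdiff_subset)).trans ha
    have eB : ar (((ball u₀ R \ L) \ O) \ O₂) ≤ b :=
      (ar_mono (sdiff_subset.trans sdiff_subset) (isBounded_ball.subset sdiff_subset)).trans hb
    refine mul_le_mul (Real.exp_le_exp.mpr (neg_le_neg eE)) ?_
      (mul_nonneg (h3.1 _ _ (ar_nonneg _)) (h3.1 _ _ (ar_nonneg _))) (Real.exp_pos _).le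
    exact mul_le_mul (h3.2.1 _ _ _ (ar_nonneg _) eA) (h3.2.1 _ _ _ (ar_nonneg _) eB)
      (h3.1 _ _ (ar_nonneg _)) (h3.1 _ _ ((ar_nonneg _).trans eA))

/-- the box estimate, with the sign of `b` as a hypothesis -/
lemma sbox0 (h1 : SAnd) (h2 : SSmall) (h3 : STail) (h4 : STwo) (h5 : SPiece) (h6 : SArea)
    (h7 : SCore) (k : ℕ) (r w η : ℝ) (O : Set ℂ) (ρ₁ ρ₂ θ₁ θ₂ l a b : ℝ) (hO : MeasurableSet O)
    (hOη : O ⊆ closedBall 0 η) (hη : 0 < η) (hr : 0 < r) (hρ₁ : 0 ≤ ρ₁) (hρ : ρ₁ ≤ ρ₂)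
    (hθ₁ : 0 ≤ θ₁) (hθ : θ₁ ≤ θ₂) (hw : r + ρ₂ + 2 * η ≤ w)
    (hl : l ≤ max 0 (ar (DD r ∩ ball 0 ρ₁) - 7 * η ^ 2))
    (ha : ar (ball 0 (ρ₂ + 2 * η) \ DD r) ≤ a) (hb0 : 0 ≤ b)
    (hb : ∀ u ∈ Box ρ₁ ρ₂ θ₁ θ₂, ar (ball u (ρ₂ + 2 * η) \ (DD r ∩ ball 0 ρ₁)) ≤ b) :
    UB (ball (r : ℂ) w \ O) (fun S => Ev k r w O S ∧ S ∩ (DD r ∩ ball 0 ρ₁) = ∅ ∧
        (S ∩ (DD r ∩ Box ρ₁ ρ₂ θ₁ θ₂)).Nonempty)
      ((ρ₂ ^ 2 - ρ₁ ^ 2) * (θ₂ - θ₁) * (Real.exp (-l) * (T k a * T k b) + 5 * η ^ 2)) := by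
  have hp : 0 ≤ Real.exp (-l) * (T k a * T k b) :=
    mul_nonneg (Real.exp_pos _).le (mul_nonneg (h3.1 _ _ ((ar_nonneg _).trans ha)) (h3.1 _ _ hb0))
  have okU : Ok ((DD r ∩ Box ρ₁ ρ₂ θ₁ θ₂) \ O) := ((ok_DD r).inter (meas_box _ _ _ _)).diff hO
  have hUW : (DD r ∩ Box ρ₁ ρ₂ θ₁ θ₂) \ O ⊆ ball (r : ℂ) w \ O := by
    intro x hx
    have : dist x (r : ℂ) ≤ r := hx.1.1
    exact ⟨mem_ball.mpr (by linarith), hx.2⟩
  refine (h5 (ball (r : ℂ) w \ O) _ η _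
    (fun S _ => Ev k r w O S ∧ S ∩ (DD r ∩ ball 0 ρ₁) = ∅) (measurableSet_ball.diff hO) okU hUW hη
    hp fun u₀ hu₀ => one h1 h2 h3 h4 h7 k r w η O ρ₁ ρ₂ l a b hO hOη hη hr (hρ₁.trans hρ) hw hl ha _
      (fun u hu => ⟨hu.1.1, hu.1.2.2.1⟩) u₀ hu₀.1.1 (hb u₀ hu₀.1.2)).mono le_rfl ?_ ?_
  · rintro S _ ⟨hE, hL, x, xS, xD⟩
    refine ⟨x, ⟨xS, xD, fun xO => ?_⟩, hE, hL⟩
    obtain ⟨v, hv, C, _, hvC, hCD⟩ := hE
    have d : dist x (r : ℂ) ≤ r := xD.1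
    have : x ∈ S ∩ ball (r : ℂ) w ∩ O := ⟨⟨xS, mem_ball.mpr (by linarith)⟩, xO⟩
    rw [hv] at this
    exact Set.disjoint_left.mp hCD (this ▸ hvC) xD.1
  · refine mul_le_mul_of_nonneg_right ?_ (add_nonneg hp (by positivity))
    exact (ar_mono (sdiff_subset.trans inter_subset_right) (bdd_box _ _ _ _)).trans
      (h6.2.1 ρ₁ ρ₂ θ₁ θ₂ hρ₁ hρ hθ₁ hθ)

end BoxP

theorem sbox (h1 : SAnd) (h2 : SSmall) (h3 : STail) (h4 : STwo) (h5 : SPiece) (h6 : SArea)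
    (h7 : SCore) : SBox :=
  BoxP.sbox0 h1 h2 h3 h4 h5 h6 h7

end Pool.Agent.P.MP_50fd71_pr
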