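import Pool.Agent.P.MP_50fd71_pr.Basic

/-!
Close points of two different clusters, and the passage from the standard position to an edge.
-/

open MeasureTheory ProbabilityTheory Set Metric Bornology

noncomputable section

namespace Pool.Agent.P.MP_50fd71_pr

namespace CoreP

lemma fin_close {S : Set ℂ} (hS : LF S) (x : ℂ) (d : ℝ) :
    {w | w ∈ S ∧ w ≠ x ∧ dist x w < d}.Finite := by
  refine (hS (ball x d) isBounded_ball).subset ?_
  rintro w ⟨h1, -, h3⟩
  exact ⟨h1, by rwa [mem_ball, dist_comm]⟩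

lemma many {k : ℕ} {S : Set ℂ} (hS : LF S) {x y : ℂ} (h : ¬ Near k S x y) :
    ∃ X : Finset ℂ, X.card = k ∧
      ∀ w ∈ X, w ∈ S ∧ w ≠ x ∧ dist x w < dist x y ∧ Near k S x w := by
  classical
  set F : Set ℂ := {w | w ∈ S ∧ w ≠ x ∧ dist x w < dist x y} with hF
  set G : Set ℂ := {w | w ∈ S ∧ w ≠ x ∧ dist x w < dist x y ∧ Near k S x w} with hG
  have hFf : F.Finite := fin_close hS x _
  have hGF : G ⊆ F := fun w hw => ⟨hw.1, hw.2.1, hw.2.2.1⟩
  have hGf : G.Finite := hFf.subset hGF
  have hk : k ≤ G.ncard := by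
    by_contra hlt
    rw [not_le] at hlt
    have hne : (F \ G).Nonempty := by
      by_contra he
      rw [not_nonempty_iff_eq_empty, sdiff_eq_empty] at he
      exact h (lt_of_le_of_lt (ncard_le_ncard he hGf) hlt)
    obtain ⟨w, hw, hmin⟩ := exists_min_image (F \ G) (fun w => dist x w) (hFf.subset sdiff_subset) hne
    refine hw.2 ⟨hw.1.1, hw.1.2.1, hw.1.2.2, ?_⟩
    refine lt_of_le_of_lt (ncard_le_ncard ?_ hGf) hlt
    rintro t ⟨h1, h2, h3⟩
    by_contra ht
    exact absurd (hmin t ⟨⟨h1, h2, h3.trans hw.1.2.2⟩, ht⟩) (not_le.2 h3)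
  rw [ncard_eq_toFinset_card G hGf] at hk
  obtain ⟨X, hX, hc⟩ := Finset.exists_subset_card_eq hk
  exact ⟨X, hc, fun w hw => (hGf.mem_toFinset.1 (hX hw))⟩

lemma dist_move {y c : ℂ} (r : ℝ) (hc : ‖c‖ = 1) (t : ℂ) :
    dist (y - r * c + c * t) y = dist t r := by
  rw [dist_eq_norm, dist_eq_norm, show y - r * c + c * t - y = c * (t - r) by ring, norm_mul, hc,
    one_mul]

end CoreP

open CoreP

theorem score : SCore := by
  intro k S C v u hS hC hv hu huC
  have hvS : v ∈ S := hC.1 hv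
  have hne : v ≠ u := fun e => huC (e ▸ hv)
  have h1 : ¬ Near k S v u := fun h => huC (hC.2 v hv u ⟨hne, hvS, hu, Or.inl h⟩)
  have h2 : ¬ Near k S u v := fun h => huC (hC.2 v hv u ⟨hne, hvS, hu, Or.inr h⟩)
  obtain ⟨X, hX, hX'⟩ := many hS h1
  obtain ⟨Y, hY, hY'⟩ := many hS h2
  refine ⟨X, Y, hX, hY, fun w hw => ?_, fun w hw => ?_⟩
  · obtain ⟨a, b, c, d⟩ := hX' w hw
    exact ⟨⟨hC.2 v hv w ⟨b.symm, hvS, a, Or.inl d⟩, by rwa [mem_ball, dist_comm]⟩, b⟩
  · obtain ⟨a, b, c, d⟩ := hY' w hw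
    refine ⟨⟨⟨a, fun hw => huC (hC.2 w hw u ⟨b, a, hu, Or.inr d⟩)⟩, ?_⟩, b⟩
    rwa [mem_ball, dist_comm, dist_comm v u]

theorem sedge (h1 : SSmall) (h2 : SPiece) (h3 : SMove) (h4 : SArea) : SEdge := by
  intro k r w ε p hr hε hw hp hL z y hzy
  have hA : UB (ball y w) (fun S => S ∩ closedBall y r = ∅) (Real.exp (-(Real.pi * r ^ 2))) := by
    refine (h1 _ (ok_closedBall y r)).1.mono (closedBall_subset_ball (by linarith))
      (fun _ _ h => h) ?_
    rw [ar_closedBall y hr.le]
  have hU : ∀ x ∈ closedBall z r \ closedBall y r, r < dist x y ∧ dist x y ≤ r + ε := by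
    rintro x ⟨hx, hx'⟩
    rw [mem_closedBall] at hx hx'
    exact ⟨not_le.1 hx', (dist_triangle x z y).trans (by linarith)⟩
  have hB := h2 (ball y w) (closedBall z r \ closedBall y r) ε p
    (fun S x => ∃ C, Cl k S C ∧ x ∈ C ∧ Disjoint C (closedBall y r)) measurableSet_ball
    ((ok_closedBall z r).diff measurableSet_closedBall)
    (fun x hx => lt_of_le_of_lt (hU x hx).2 hw) hε hp (by
      intro x₀ hx₀
      obtain ⟨hd1, hd2⟩ := hU x₀ hx₀
      have hd : dist x₀ y = ‖y - x₀‖ := by rw [dist_comm, dist_eq_norm]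
      rw [hd] at hd1 hd2
      have hd0 : 0 < ‖y - x₀‖ := hr.trans hd1
      have hd0' : ((‖y - x₀‖ : ℝ) : ℂ) ≠ 0 := by exact_mod_cast hd0.ne'
      obtain ⟨c, hc, hcd⟩ : ∃ c : ℂ, ‖c‖ = 1 ∧ y - x₀ = (‖y - x₀‖ : ℝ) * c := by
        refine ⟨(y - x₀) / (‖y - x₀‖ : ℝ), ?_, by field_simp⟩
        rw [norm_div, Complex.norm_real, norm_norm, div_self hd0.ne']
      have hc0 : c ≠ 0 := by
        rintro rfl
        simp at hc
      set f : ℂ → ℂ := fun x => y - r * c + c * x with hf
      have hO : f ⁻¹' closedBall x₀ ε ⊆ closedBall 0 (2 * ε) := by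
        intro t ht
        rw [mem_preimage, mem_closedBall, dist_eq_norm] at ht
        rw [mem_closedBall, dist_zero_right]
        have e : c * t = (f t - x₀) - ((‖y - x₀‖ - r : ℝ) : ℂ) * c := by
          push_cast
          simp only [hf]
          linear_combination (-1 : ℂ) * hcd
        have e2 : ‖t‖ = ‖c * t‖ := by rw [norm_mul, hc, one_mul]
        rw [e2, e]
        refine (norm_sub_le _ _).trans ?_
        rw [norm_mul, hc, Complex.norm_real, Real.norm_of_nonneg (by linarith)]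
        linarith
      have hm : MeasurableSet (f ⁻¹' closedBall x₀ ε) :=
        measurableSet_closedBall.preimage (by fun_prop)
      obtain ⟨hM1, hM2⟩ := h3 (y - r * c) c hc
      refine (hM1 _ _ _ (hL _ hm hO)).mono ?_ ?_ le_rfl
      · rintro _ ⟨t, ⟨ht1, ht2⟩, rfl⟩
        refine ⟨?_, ht2⟩
        rw [mem_ball] at ht1 ⊢
        rwa [dist_move r hc]
      · rintro S - ⟨x, -, hx, C, hC, hxC, hD⟩
        have hv : f ((x - (y - r * c)) / c) = x := by
          simp only [hf]
          field_simp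
          ring
        refine ⟨(x - (y - r * c)) / c, ?_, f ⁻¹' C, hM2 k S C hC, ?_, ?_⟩
        · ext t
          rw [mem_singleton_iff]
          have e1 : f t ∈ S ∩ ball y w ∩ closedBall x₀ ε ↔ f t = x := by rw [hx, mem_singleton_iff]
          have e2 : f t ∈ ball y w ↔ t ∈ ball (r : ℂ) w := by
            rw [mem_ball, mem_ball, hf, dist_move r hc]
          have e3 : f t = x ↔ t = (x - (y - r * c)) / c := by
            constructor
            · intro h
              rw [eq_div_iff hc0, ← h, hf]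
              ring
            · rintro rfl
              exact hv
          rw [← e3, ← e1]
          simp only [mem_inter_iff, e2]
          rfl
        · rw [mem_preimage, hv]
          exact hxC
        · rw [Set.disjoint_left] at hD ⊢
          intro t ht ht'
          refine hD ht ?_
          rw [DD, mem_closedBall] at ht'
          rw [mem_closedBall, hf, dist_move r hc]
          exact ht')
  refine (hA.or hB).mono le_rfl ?_ ?_
  · rintro S - (h | ⟨C, hC, hD, v, hv, hvz⟩)
    · exact Or.inl h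
    · exact Or.inr ⟨v, ⟨hC.1 hv, hvz, Set.disjoint_left.1 hD hv⟩, C, hC, hv, hD⟩
  · have := h4.2.2 z y r hr.le
    rw [hzy] at this
    have h5 : 0 ≤ p + 5 * ε ^ 2 := by positivity
    nlinarith [mul_le_mul_of_nonneg_right this h5]

end Pool.Agent.P.MP_50fd71_pr
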