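import Pool.Agent.P.MP_50fd71_pr.LatA

/-!
Last exit decomposition of the contour.
-/

open Set

noncomputable section

namespace Pool.Agent.P.MP_50fd71_pr

namespace LatP

/-- position along the hexagonal ring -/
def idx (m : ℤ) (y : ℤ × ℤ) : ℤ :=
  if 0 ≤ y.2 then (if 0 < y.1 then y.2 else if 0 < y.1 + y.2 then m - y.1 else 3 * m - y.2)
  else (if y.1 < 0 then 3 * m - y.2 else if y.1 + y.2 < 0 then 4 * m + y.1 else 6 * m + y.2)

lemma ring_cases {m : ℤ} {y : ℤ × ℤ} (hm : 0 < m) (h : hn y = m) : ∃ i, idx m y = i ∧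
    ((0 ≤ i ∧ i < m ∧ y.1 = m - i ∧ y.2 = i) ∨ (m ≤ i ∧ i < 2 * m ∧ y.1 = m - i ∧ y.2 = m) ∨
    (2 * m ≤ i ∧ i < 3 * m ∧ y.1 = -m ∧ y.2 = 3 * m - i) ∨
    (3 * m ≤ i ∧ i < 4 * m ∧ y.1 = i - 4 * m ∧ y.2 = 3 * m - i) ∨
    (4 * m ≤ i ∧ i < 5 * m ∧ y.1 = i - 4 * m ∧ y.2 = -m) ∨
    (5 * m ≤ i ∧ i < 6 * m ∧ y.1 = m ∧ y.2 = i - 6 * m)) := by
  have h1 := hn_le_iff.1 h.le
  have h2 := mt hn_lt_iff.2 h.ge.not_gt
  refine ⟨_, rfl, ?_⟩
  unfold idx
  split_ifs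
  · exact .inl (by omega)
  · exact .inr (.inl (by omega))
  · rcases eq_or_ne y.2 0 with h3 | h3
    · exact .inr (.inr (.inr (.inl (by omega))))
    · exact .inr (.inr (.inl (by omega)))
  · exact .inr (.inr (.inr (.inl (by omega))))
  · exact .inr (.inr (.inr (.inr (.inl (by omega)))))
  · exact .inr (.inr (.inr (.inr (.inr (by omega)))))

lemma idx_inj {m : ℤ} {y y' : ℤ × ℤ} (hm : 0 < m) (h : hn y = m) (h' : hn y' = m)
    (e : idx m y = idx m y') : y = y' := by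
  obtain ⟨i, h1, h2⟩ := ring_cases hm h
  obtain ⟨i', h1', h2'⟩ := ring_cases hm h'
  obtain rfl : i = i' := h1.symm.trans (e.trans h1')
  clear h1 h1' e h h'
  rcases h2 with h2 | h2 | h2 | h2 | h2 | h2 <;> rcases h2' with h2' | h2' | h2' | h2' | h2' | h2' <;>
    exact Prod.ext (by omega) (by omega)

lemma idx_far {m : ℤ} {y d : ℤ × ℤ} (hm : 0 < m) (h : hn y = m) (h' : hn d = m)
    (e : m ≤ hn (y - d)) : m ≤ |idx m y - idx m d| ∧ |idx m y - idx m d| ≤ 5 * m := by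
  obtain ⟨i, h1, h2⟩ := ring_cases hm h
  obtain ⟨i', h1', h2'⟩ := ring_cases hm h'
  have h3 := mt hn_lt_iff.2 e.not_gt
  simp only [Prod.fst_sub, Prod.snd_sub] at h3
  rw [h1, h1', le_abs, abs_le]
  clear h1 h1' e h h'
  by_contra h4
  refine h3 ?_
  clear h3
  have h5 : (-m < i - i' ∧ i - i' < m) ∨ 5 * m < i - i' ∨ i - i' < -(5 * m) := by omega
  clear h4
  rcases h2 with h2 | h2 | h2 | h2 | h2 | h2 <;> rcases h2' with h2' | h2' | h2' | h2' | h2' | h2' <;>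
    omega

/-- the edge has just left the hexagon of radius `m` around `c` -/
def RE (m : ℤ) (c : ℤ × ℤ) (f : (ℤ × ℤ) × (ℤ × ℤ)) : Prop :=
  ∃ w, hn (w - c) < m ∧ hn (w - f.1) = 1 ∧ f.2 = f.1 + rot (w - f.1) ∧ m ≤ hn (f.1 - c) ∧
    m ≤ hn (f.2 - c)

lemma RE.cases {m : ℤ} {c : ℤ × ℤ} {f : (ℤ × ℤ) × (ℤ × ℤ)} (h : RE m c f) :
    hn (f.2 - c) = m ∧ ∃ a b, f.2.1 - c.1 = a ∧ f.2.2 - c.2 = b ∧
    ((0 < a ∧ 0 ≤ b ∧ f.1.1 = f.2.1 - 1 ∧ f.1.2 = f.2.2 + 1) ∨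
    (a ≤ 0 ∧ 0 < a + b ∧ f.1.1 = f.2.1 - 1 ∧ f.1.2 = f.2.2) ∨
    (a + b ≤ 0 ∧ 0 < b ∧ f.1.1 = f.2.1 ∧ f.1.2 = f.2.2 - 1) ∨
    (a < 0 ∧ b ≤ 0 ∧ f.1.1 = f.2.1 + 1 ∧ f.1.2 = f.2.2 - 1) ∨
    (0 ≤ a ∧ a + b < 0 ∧ f.1.1 = f.2.1 + 1 ∧ f.1.2 = f.2.2) ∨
    (0 ≤ a + b ∧ b < 0 ∧ f.1.1 = f.2.1 ∧ f.1.2 = f.2.2 + 1)) := by
  obtain ⟨⟨x1, x2⟩, y1, y2⟩ := f
  obtain ⟨⟨w1, w2⟩, h1, h2, h3, h4, h5⟩ := h
  have h6 := hn_le_iff.1 h2.le
  have h7 := mt hn_lt_iff.2 h2.ge.not_gt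
  have h8 := mt hn_lt_iff.2 h4.not_gt
  have h9 := mt hn_lt_iff.2 h5.not_gt
  refine ⟨le_antisymm ?_ h5, _, _, rfl, rfl, ?_⟩ <;>
    simp only [hn_lt_iff, hn_le_iff, rot, Prod.mk.injEq, Prod.mk_add_mk, Prod.mk_sub_mk,
      Prod.fst_sub, Prod.snd_sub] at h1 h3 h6 h7 h8 h9 ⊢
  · clear h7 h8 h9
    omega
  · have : (w1 - x1 = 1 ∧ w2 - x2 = 0) ∨ (w1 - x1 = 0 ∧ w2 - x2 = 1) ∨
      (w1 - x1 = -1 ∧ w2 - x2 = 1) ∨ (w1 - x1 = -1 ∧ w2 - x2 = 0) ∨
      (w1 - x1 = 0 ∧ w2 - x2 = -1) ∨ (w1 - x1 = 1 ∧ w2 - x2 = -1) := by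
      clear h1 h3 h8 h9
      omega
    clear h6 h7
    rcases this with h | h | h | h | h | h
    · exact .inr (.inr (.inl (by omega)))
    · exact .inr (.inr (.inr (.inl (by omega))))
    · exact .inr (.inr (.inr (.inr (.inl (by omega)))))
    · exact .inr (.inr (.inr (.inr (.inr (by omega)))))
    · exact .inl (by omega)
    · exact .inr (.inl (by omega))

lemma RE.inj {m : ℤ} {c : ℤ × ℤ} {f g : (ℤ × ℤ) × (ℤ × ℤ)} (hm : 0 < m) (hf : RE m c f)
    (hg : RE m c g) (h : idx m (f.2 - c) = idx m (g.2 - c)) : f = g := by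
  have h1 := sub_left_injective (idx_inj hm hf.cases.1 hg.cases.1 h)
  obtain ⟨a, b, h2, h3, h4⟩ := hf.cases.2
  obtain ⟨a', b', h2', h3', h4'⟩ := hg.cases.2
  have h5 := congrArg Prod.fst h1
  have h6 := congrArg Prod.snd h1
  refine Prod.ext (Prod.ext ?_ ?_) h1 <;> omega

lemma cover {α : Type} {s : Set α} (t : Finset ℤ) (g : α → ℤ) (h1 : MapsTo g s t)
    (h2 : InjOn g s) : ∃ F : Finset α, F.card ≤ t.card ∧ ∀ a ∈ s, a ∈ F := by
  have h := Finite.of_injOn h1 h2 t.finite_toSet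
  exact ⟨h.toFinset, Finset.card_le_card_of_injOn g (by simpa using h1) (by simpa using h2),
    fun a ha => h.mem_toFinset.2 ha⟩

lemma ring0 {m : ℕ} (hm : 1 ≤ m) (c : ℤ × ℤ) : ∃ F : Finset ((ℤ × ℤ) × (ℤ × ℤ)),
    F.card ≤ 6 * m ∧ ∀ f, RE m c f → f ∈ F := by
  have h0 : (0 : ℤ) < m := by omega
  obtain ⟨F, h1, h2⟩ := cover (s := {f | RE m c f}) (Finset.Ico 0 (6 * m))
    (fun f => idx m (f.2 - c)) (fun f hf => by
      obtain ⟨i, h1, h2⟩ := ring_cases h0 (RE.cases hf).1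
      simp only [Finset.coe_Ico, mem_Ico]
      omega) fun f hf g hg => RE.inj h0 hf hg
  refine ⟨F, h1.trans ?_, h2⟩
  rw [Int.card_Ico]
  omega

lemma ring1 {m : ℕ} (hm : 1 ≤ m) (c c' : ℤ × ℤ) : ∃ F : Finset ((ℤ × ℤ) × (ℤ × ℤ)),
    F.card ≤ 4 * m + 1 ∧ ∀ f, RE m c f → hn (c' - c) = m → m ≤ hn (f.2 - c') → f ∈ F := by
  have h0 : (0 : ℤ) < m := by omega
  obtain ⟨F, h1, h2⟩ := cover (s := {f | RE m c f ∧ hn (c' - c) = m ∧ m ≤ hn (f.2 - c')})
    (Finset.Icc m (5 * m)) (fun f => if idx m (c' - c) ≤ idx m (f.2 - c)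
      then idx m (f.2 - c) - idx m (c' - c) else idx m (f.2 - c) - idx m (c' - c) + 6 * m)
    (fun f hf => by
      have h := idx_far h0 hf.1.cases.1 hf.2.1 (by rw [sub_sub_sub_cancel_right]; exact hf.2.2)
      rw [le_abs, abs_le] at h
      simp only [Finset.coe_Icc, mem_Icc]
      split_ifs <;> omega) fun f hf g hg h => RE.inj h0 hf.1 hg.1 (by
      obtain ⟨i, h1, h2⟩ := ring_cases h0 hf.1.cases.1
      obtain ⟨i', h1', h2'⟩ := ring_cases h0 hg.1.cases.1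
      simp only at h
      split_ifs at h <;> omega)
  refine ⟨F, h1.trans ?_, fun f a b c => h2 f ⟨a, b, c⟩⟩
  rw [Int.card_Icc]
  omega

lemma re_nx {B : Set (ℤ × ℤ)} {e : (ℤ × ℤ) × (ℤ × ℤ)} {m : ℤ} {c : ℤ × ℤ} (h : Bd B e)
    (h1 : hn (e.1 - c) < m ∨ hn (e.2 - c) < m)
    (h2 : ¬(hn ((nx B e).1 - c) < m ∨ hn ((nx B e).2 - c) < m)) : RE m c (nx B e) := by
  unfold nx at h2 ⊢
  rw [not_or, not_lt, not_lt] at h2
  split_ifs at h2 ⊢ with h3
  · refine ⟨e.1, h1.resolve_right h2.2.not_gt, ?_, ?_, h2⟩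
    · rw [← h.2.2, ← hn_rot (e.2 - e.1), ← hn_neg]
      exact congrArg hn (by simp)
    · ext <;> simp [rot] <;> ring
  · exact ⟨e.2, h1.resolve_left h2.1.not_gt, h.2.2, rfl, h2⟩

/-- candidates for the next station -/
def nxt {α β : Type} (F : β → Finset (α × β)) (G : β → β → Finset (α × β)) :
    List (α × β) → Finset (α × β)
  | [] => ∅
  | [e] => F e.2
  | e :: e' :: _ => G e.2 e'.2

/-- candidates for the chain of stations -/
def raw {α : Type} [DecidableEq α] (N : List α → Finset α) (a b : α) : ℕ → Finset (List α)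
  | 0 => {[a], [b]}
  | n + 1 => (raw N a b n).biUnion fun l => (N l).image fun f => f :: l

lemma raw_len {α : Type} [DecidableEq α] {N : List α → Finset α} {a b : α} {n : ℕ} :
    ∀ l ∈ raw N a b n, l.length = n + 1 := by
  induction n with
  | zero => simp [raw]
  | succ n ih =>
    simp only [raw, Finset.mem_biUnion, Finset.mem_image]
    rintro _ ⟨l, hl, f, -, rfl⟩
    rw [List.length_cons, ih l hl]

lemma raw_card {α : Type} [DecidableEq α] {N : List α → Finset α} {a b : α} {n c : ℕ}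
    (h : ∀ l : List α, l.length = n + 1 → (N l).card ≤ c) :
    (raw N a b (n + 1)).card ≤ (raw N a b n).card * c :=
  Finset.card_biUnion_le_card_mul _ _ c fun l hl =>
    Finset.card_image_le.trans (h l (raw_len l hl))

end LatP

open LatP in
theorem slat : SLat := by
  intro m hm
  choose F hF1 hF2 using ring0 hm
  choose G hG1 hG2 using ring1 hm
  let R : ℕ → ℕ → Finset (List ((ℤ × ℤ) × (ℤ × ℤ))) := fun j =>
    raw (nxt F G) (((j : ℤ), 0), ((j : ℤ) + 1, 0)) (((j : ℤ) + 1, 0), ((j : ℤ), 0))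
  refine ⟨fun j n => (R j n).filter fun l => (∀ e ∈ l, hn (e.2 - e.1) = 1) ∧
    l.Pairwise fun e f => (m : ℤ) ≤ hn (e.2 - f.2), fun j n => ?_, fun j n l hl => ?_, ?_⟩
  · refine (Finset.card_filter_le _ _).trans ?_
    have h0 : (R j 0).card ≤ 2 := Finset.card_le_two
    induction n with
    | zero => exact h0.trans (by simp)
    | succ n ih =>
      rcases n with - | n
      · refine (raw_card (c := 6 * m) fun l hl => ?_).trans
          ((Nat.mul_le_mul_right _ h0).trans (by rw [zero_add, pow_one]; omega))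
        match l, hl with
        | [e], _ => exact hF1 _
      · refine (raw_card (c := 4 * m + 1) fun l hl => ?_).trans ((Nat.mul_le_mul_right _ ih).trans ?_)
        · match l, hl with
          | e :: e' :: _, _ => exact hG1 _ _
        · rw [mul_assoc, ← pow_succ]
  · rw [Finset.mem_filter] at hl
    exact ⟨raw_len l hl.1, hl.2⟩
  intro B M hB hM
  obtain ⟨j, e, he, hj, K, hK1, hK2⟩ := reach hB (hM 0 (by simp [hn]))
  have key : ∀ n, n * m ≤ j → ∃ t ≤ K, ∃ l, (nx B)^[t] e :: l ∈ R j n ∧ (∀ f ∈ l, Bd B f) ∧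
      (l.Pairwise fun e f => (m : ℤ) ≤ hn (e.2 - f.2)) ∧
      (∀ f ∈ l, ∀ s, t ≤ s → s ≤ K → (m : ℤ) ≤ hn (((nx B)^[s] e).2 - f.2)) ∧
      (j : ℤ) - n * m ≤ ((nx B)^[t] e).2.1 ∧
      ∀ f ∈ l.head?, hn (f.2 - ((nx B)^[t] e).2) = m := by
    intro n
    induction n with
    | zero =>
      refine fun _ => ⟨0, K.zero_le, [], ?_, by simp, by simp, by simp, ?_, by simp⟩
      · simpa [R, raw] using hj
      · rcases hj with rfl | rfl <;> simp
    | succ n ih =>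
      intro hn'
      obtain ⟨t, ht, l, h1, h2, h3, h4, h5, h6⟩ := ih (by nlinarith)
      have hj' : ((n : ℤ) + 1) * m ≤ j := by exact_mod_cast hn'
      rw [add_mul, one_mul] at hj'
      set c := ((nx B)^[t] e).2 with hc
      let p : ℕ → Prop := fun s => hn (((nx B)^[s] e).1 - c) < m ∨ hn (((nx B)^[s] e).2 - c) < m
      have pt : p t := Or.inr (by simp [hn, ← hc]; omega)
      have pK : ¬p K := by
        simp only [p, hn_lt_iff, Prod.fst_sub]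
        omega
      have s1 := Nat.le_findGreatest ht pt
      have s2 := Nat.findGreatest_spec ht pt
      have s3 : Nat.findGreatest p K < K :=
        (Nat.findGreatest_le K).lt_of_ne fun h => pK (h ▸ s2)
      have s4 : ∀ s, Nat.findGreatest p K < s → s ≤ K → ¬p s := fun s =>
        Nat.findGreatest_is_greatest
      generalize Nat.findGreatest p K = s at s1 s2 s3 s4
      have hre : RE m c ((nx B)^[s + 1] e) := by
        have := s4 (s + 1) s.lt_succ_self s3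
        simp only [p, Function.iterate_succ_apply'] at this ⊢
        exact re_nx (he.iter s) s2 this
      refine ⟨s + 1, s3, (nx B)^[t] e :: l, ?_, ?_, ?_, ?_, ?_, ?_⟩
      · refine Finset.mem_biUnion.2 ⟨_, h1, Finset.mem_image.2 ⟨_, ?_, rfl⟩⟩
        rcases l with - | ⟨f, l⟩
        · exact hF2 _ _ hre
        · exact hG2 _ _ _ hre (h6 f rfl) (h4 f (by simp) _ (by omega) s3)
      · exact List.forall_mem_cons.2 ⟨he.iter t, h2⟩
      · exact List.pairwise_cons.2 ⟨fun f hf => h4 f hf t le_rfl ht, h3⟩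
      · refine List.forall_mem_cons.2 ⟨fun s' a b => ?_, fun f hf s' a b => h4 f hf s' (by omega) b⟩
        exact not_lt.1 fun h => s4 s' a b (Or.inr h)
      · have := hn_le_iff.1 hre.cases.1.le
        simp only [Prod.fst_sub] at this
        push_cast
        rw [add_mul, one_mul]
        omega
      · rintro f ⟨⟩
        rw [← hn_neg, neg_sub]
        exact hre.cases.1
  obtain ⟨t, ht, l, h1, h2, h3, h4, -⟩ := key (j / m) (Nat.div_mul_le_self j m)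
  have h5 : ∀ f ∈ (nx B)^[t] e :: l, Bd B f := List.forall_mem_cons.2 ⟨he.iter t, h2⟩
  refine ⟨j, ?_, _, Finset.mem_filter.2 ⟨h1, fun f hf => (h5 f hf).2.2,
    List.pairwise_cons.2 ⟨fun f hf => h4 f hf t le_rfl ht, h3⟩⟩,
    fun f hf => ⟨(h5 f hf).1, (h5 f hf).2.1⟩⟩
  by_contra h
  refine he.2.1 (hM _ ?_)
  rcases hj with rfl | rfl <;> simp only [hn_le_iff] <;> omega

end Pool.Agent.P.MP_50fd71_pr
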