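import Pool.Agent.P.MP_50fd71_pr.Basic

/-!
Invariance under rigid motions.
-/

open MeasureTheory ProbabilityTheory Set Metric Bornology

noncomputable section

namespace Pool.Agent.P.MP_50fd71_pr

namespace MoveP

variable (e : ℂ ≃ᵢ ℂ)

lemma cnt_pre (S A : Set ℂ) : cnt (e ⁻¹' S) A = cnt S (e '' A) := by
  unfold cnt
  rw [← Set.ncard_image_of_injective _ e.injective, Set.image_preimage_inter]

lemma ok_image {A : Set ℂ} (h : Ok A) : Ok (e '' A) :=
  ⟨e.toHomeomorph.measurableEmbedding.measurableSet_image.2 h.1,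
    e.isometry.lipschitz.isBounded_image h.2⟩

lemma ar_image (he : MeasurePreserving e volume volume) {A : Set ℂ} (h : Ok A) :
    ar (e '' A) = ar A := by
  unfold ar
  rw [measureReal_def, measureReal_def,
    ← he.measure_preimage (ok_image e h).1.nullMeasurableSet, e.injective.preimage_image]

lemma poi (he : MeasurePreserving e volume volume) {Ω : Type} [MeasurableSpace Ω]
    {μ : Measure Ω} {P : Ω → Set ℂ} (h : Poi μ P) : Poi μ fun ω => e ⁻¹' P ω where
  prob := h.prob
  fin := fun ω A hA => by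
    have := h.fin ω _ (e.isometry.lipschitz.isBounded_image hA)
    rw [← Set.image_preimage_inter] at this
    exact this.of_finite_image e.injective.injOn
  meas := fun A hA => by
    simp only [cnt_pre]
    exact h.meas _ (ok_image e hA)
  law := fun A hA n => by
    simp only [cnt_pre]
    rw [h.law _ (ok_image e hA), ar_image e he hA]
  ind := fun n A hA hd => by
    simp only [cnt_pre]
    exact h.ind n (fun i => e '' A i) (fun i => ok_image e (hA i))
      fun i j hij => (Set.disjoint_image_iff e.injective).2 (hd hij)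

lemma sig_pre {Ω : Type} (P : Ω → Set ℂ) (W : Set ℂ) :
    sig (fun ω => e ⁻¹' P ω) W ≤ sig P (e '' W) :=
  iSup₂_le fun A hA => by
    simp only [cnt_pre]
    exact (meas_cnt P (ok_image e hA.1) (Set.image_mono hA.2)).comap_le

lemma ub (he : MeasurePreserving e volume volume) {W : Set ℂ} {E : Set ℂ → Prop} {p : ℝ}
    (h : UB W E p) : UB (e '' W) (fun S => E (e ⁻¹' S)) p := by
  intro Ω _ μ P hP
  obtain ⟨G, h1, h2, h3⟩ := h Ω μ _ (poi e he hP)
  exact ⟨G, sig_pre e P W G h1, h2, h3⟩

lemma near (k : ℕ) (S : Set ℂ) (x y : ℂ) : Near k (e ⁻¹' S) x y ↔ Near k S (e x) (e y) := by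
  unfold Near
  rw [← Set.ncard_image_of_injective _ e.injective]
  have : e '' {w | w ∈ e ⁻¹' S ∧ w ≠ x ∧ dist x w < dist x y} =
      {w | w ∈ S ∧ w ≠ e x ∧ dist (e x) w < dist (e x) (e y)} := by
    ext w
    obtain ⟨v, rfl⟩ := e.surjective w
    rw [e.injective.mem_set_image]
    simp only [mem_ofPred_eq, mem_preimage, e.dist_eq, ne_eq, e.injective.eq_iff]
  rw [this]

lemma cl {k : ℕ} {S C : Set ℂ} (h : Cl k S C) : Cl k (e ⁻¹' S) (e ⁻¹' C) :=
  ⟨preimage_mono h.1, fun x hx y hy => h.2 (e x) hx (e y)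
    ⟨e.injective.ne hy.1, hy.2.1, hy.2.2.1, hy.2.2.2.imp (near e k S x y).1 (near e k S y x).1⟩⟩

end MoveP

theorem smove : SMove := by
  intro a c hc
  let u : Circle := ⟨c, mem_sphere_zero_iff_norm.2 hc⟩
  let e : ℂ ≃ᵢ ℂ := (rotation u).toIsometryEquiv.trans (IsometryEquiv.addLeft a)
  have hf : (fun x => a + c * x) = (e : ℂ → ℂ) := rfl
  have he : MeasurePreserving e volume volume :=
    (measurePreserving_add_left volume a).comp (rotation u).measurePreserving
  rw [hf]
  exact ⟨fun W E p h => MoveP.ub e he h, fun k S C h => MoveP.cl e h⟩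

end Pool.Agent.P.MP_50fd71_pr
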