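import Pool.Agent.P.MP_50fd71_pr.Basic

/-!
The Peierls argument.
-/

open MeasureTheory ProbabilityTheory Set Metric Bornology

noncomputable section

namespace Pool.Agent.P.MP_50fd71_pr

namespace PeiP

/-- position of a site of the triangular lattice -/
def pos (ε : ℝ) (p : ℤ × ℤ) : ℂ := ⟨ε * (p.1 + p.2 / 2), ε * (√3 / 2 * p.2)⟩

lemma pos_sub (ε : ℝ) (p q : ℤ × ℤ) : pos ε p - pos ε q = pos ε (p - q) := by
  apply Complex.ext <;> simp [pos] <;> ring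

lemma norm_sq (ε : ℝ) (p : ℤ × ℤ) :
    ‖pos ε p‖ ^ 2 = ε ^ 2 * ((p.1 ^ 2 + p.1 * p.2 + p.2 ^ 2 : ℤ) : ℝ) := by
  have h3 : √3 * √3 = 3 := Real.mul_self_sqrt (by norm_num)
  rw [Complex.sq_norm, Complex.normSq_apply]
  simp only [pos]
  push_cast
  linear_combination (ε ^ 2 * (p.2 : ℝ) ^ 2 / 4) * h3

lemma hn_nonneg (p : ℤ × ℤ) : 0 ≤ hn p := (abs_nonneg _).trans (le_max_left _ _)

lemma le_hn (p : ℤ × ℤ) : |p.1| ≤ hn p ∧ |p.2| ≤ hn p ∧ |p.1 + p.2| ≤ hn p :=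
  ⟨le_max_left _ _, (le_max_left _ _).trans (le_max_right _ _),
    (le_max_right _ _).trans (le_max_right _ _)⟩

lemma hn_sq (p : ℤ × ℤ) : 3 * hn p ^ 2 ≤ 4 * (p.1 ^ 2 + p.1 * p.2 + p.2 ^ 2) := by
  have h : hn p = |p.1| ∨ hn p = |p.2| ∨ hn p = |p.1 + p.2| := by
    unfold hn
    rcases max_choice |p.1| (max |p.2| |p.1 + p.2|) with h | h
    · exact Or.inl h
    · rw [h]
      exact Or.inr (max_choice _ _)
  rcases h with h | h | h <;> rw [h, sq_abs]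
  · nlinarith [sq_nonneg (p.1 + 2 * p.2)]
  · nlinarith [sq_nonneg (2 * p.1 + p.2)]
  · nlinarith [sq_nonneg (p.1 - p.2)]

lemma sq_le_hn (p : ℤ × ℤ) : p.1 ^ 2 + p.1 * p.2 + p.2 ^ 2 ≤ (2 * hn p) ^ 2 := by
  obtain ⟨h1, h2, h3⟩ := le_hn p
  have e1 := pow_le_pow_left₀ (abs_nonneg _) h1 2
  have e2 := pow_le_pow_left₀ (abs_nonneg _) h2 2
  have e3 := pow_le_pow_left₀ (abs_nonneg _) h3 2
  rw [sq_abs] at e1 e2 e3
  nlinarith [sq_nonneg (hn p)]

lemma hn_one {p : ℤ × ℤ} (h : hn p = 1) : p.1 ^ 2 + p.1 * p.2 + p.2 ^ 2 = 1 := by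
  obtain ⟨h1, h2, h3⟩ := le_hn p
  have h4 := hn_sq p
  rw [h] at h1 h2 h3 h4
  obtain ⟨a, b⟩ := p
  simp only [abs_le] at h1 h2 h3 h4 ⊢
  obtain ⟨h1, h1'⟩ := h1
  obtain ⟨h2, h2'⟩ := h2
  interval_cases a <;> interval_cases b <;> simp_all

lemma hn_add (p q : ℤ × ℤ) : hn (p + q) ≤ hn p + hn q := by
  obtain ⟨h1, h2, h3⟩ := le_hn p
  obtain ⟨k1, k2, k3⟩ := le_hn q
  refine max_le ((abs_add_le _ _).trans (add_le_add h1 k1))
    (max_le ((abs_add_le _ _).trans (add_le_add h2 k2)) ?_)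
  have : (p + q).1 + (p + q).2 = (p.1 + p.2) + (q.1 + q.2) := by
    simp only [Prod.fst_add, Prod.snd_add]; ring
  rw [this]
  exact (abs_add_le _ _).trans (add_le_add h3 k3)

lemma lower {ε : ℝ} (hε : 0 ≤ ε) (p : ℤ × ℤ) : √3 * ε * (hn p : ℝ) ≤ 2 * ‖pos ε p‖ := by
  have h0 : (0 : ℝ) ≤ hn p := by exact_mod_cast hn_nonneg p
  refine (pow_le_pow_iff_left₀ (by positivity) (by positivity) two_ne_zero).1 ?_
  have h3 : √3 ^ 2 = 3 := Real.sq_sqrt (by norm_num)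
  have h : (3 : ℝ) * (hn p : ℝ) ^ 2 ≤ 4 * ((p.1 ^ 2 + p.1 * p.2 + p.2 ^ 2 : ℤ) : ℝ) := by
    exact_mod_cast hn_sq p
  rw [mul_pow, mul_pow, mul_pow, norm_sq, h3]
  nlinarith [mul_le_mul_of_nonneg_left h (sq_nonneg ε)]

lemma upper {ε : ℝ} (hε : 0 ≤ ε) (p : ℤ × ℤ) : ‖pos ε p‖ ≤ ε * (2 * (hn p : ℝ)) := by
  have h0 : (0 : ℝ) ≤ hn p := by exact_mod_cast hn_nonneg p
  refine (pow_le_pow_iff_left₀ (by positivity) (by positivity) two_ne_zero).1 ?_
  have h : ((p.1 ^ 2 + p.1 * p.2 + p.2 ^ 2 : ℤ) : ℝ) ≤ (2 * (hn p : ℝ)) ^ 2 := by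
    exact_mod_cast sq_le_hn p
  rw [norm_sq, mul_pow]
  exact mul_le_mul_of_nonneg_left h (sq_nonneg ε)

lemma dist_one {ε : ℝ} (hε : 0 ≤ ε) {p q : ℤ × ℤ} (h : hn (q - p) = 1) :
    dist (pos ε p) (pos ε q) = ε := by
  rw [dist_comm, dist_eq_norm, pos_sub]
  refine (pow_left_inj₀ (norm_nonneg _) hε two_ne_zero).1 ?_
  rw [norm_sq, hn_one h]
  simp

lemma finite_hn (K : ℤ) : {z : ℤ × ℤ | hn z ≤ K}.Finite :=
  ((finite_Icc (-K) K).prod (finite_Icc (-K) K)).subset fun z hz =>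
    ⟨abs_le.1 ((le_hn z).1.trans hz), abs_le.1 ((le_hn z).2.1.trans hz)⟩

/-- a chain of well separated bad edges is unlikely -/
lemma chain (h1 : SAnd) {k m : ℕ} {r w ε q : ℝ} (hε : 0 < ε) (hw : 4 * w ≤ √3 * ε * m)
    (h : ∀ z y : ℂ, dist z y = ε → UB (ball y w) (Bad k r z y) q)
    (l : List ((ℤ × ℤ) × (ℤ × ℤ))) (hl : ∀ e ∈ l, hn (e.2 - e.1) = 1)
    (hp : l.Pairwise fun e f => (m : ℤ) ≤ hn (e.2 - f.2)) :
    UB (⋃ e ∈ l, ball (pos ε e.2) w) (fun S => ∀ e ∈ l, Bad k r (pos ε e.1) (pos ε e.2) S)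
      (q ^ l.length) := by
  induction l with
  | nil =>
    intro Ω _ μ P hP
    have := hP.prob
    exact ⟨univ, @MeasurableSet.univ _ (sig P _), by simp, fun _ _ => trivial⟩
  | cons e l ih =>
    rw [List.pairwise_cons] at hp
    have hd : Disjoint (ball (pos ε e.2) w) (⋃ f ∈ l, ball (pos ε f.2) w) := by
      refine disjoint_iUnion₂_right.2 fun f hf => ball_disjoint_ball ?_
      have a1 := lower hε.le (e.2 - f.2)
      have a2 : (m : ℝ) ≤ hn (e.2 - f.2) := by exact_mod_cast hp.1 f hf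
      have a3 : √3 * ε * m ≤ √3 * ε * (hn (e.2 - f.2) : ℝ) :=
        mul_le_mul_of_nonneg_left a2 (by positivity)
      rw [dist_eq_norm, pos_sub]
      linarith
    refine (h1 _ _ _ _ _ _ hd (h _ _ (dist_one hε.le (hl e List.mem_cons_self)))
      (ih (fun f hf => hl f (List.mem_cons_of_mem _ hf)) hp.2)).mono ?_ (fun S _ hS => ?_) ?_
    · refine union_subset (fun x hx => mem_iUnion₂.2 ⟨e, List.mem_cons_self, hx⟩) fun x hx => ?_
      obtain ⟨f, hf, hx⟩ := mem_iUnion₂.1 hx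
      exact mem_iUnion₂.2 ⟨f, List.mem_cons_of_mem _ hf, hx⟩
    · exact ⟨hS e List.mem_cons_self, fun f hf => hS f (List.mem_cons_of_mem _ hf)⟩
    · rw [List.length_cons, pow_succ']

/-- without an infinite cluster there are black regions all of whose boundary edges are bad -/
lemma region {k : ℕ} {r ε : ℝ} (hε : 0 < ε) {S : Set ℂ} (hS : LF S)
    (hf : ∀ x, {y | Relation.ReflTransGen (Adj k S) x y}.Finite) (M : ℕ) :
    ∃ B : Set (ℤ × ℤ), B.Finite ∧ (∀ z, hn z ≤ M → z ∈ B) ∧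
      ∀ z y, z ∈ B → y ∉ B → hn (y - z) = 1 → Bad k r (pos ε z) (pos ε y) S := by
  set L : ℝ := ε * (2 * (M + 1)) + r with hL
  let C : Set ℂ := ⋃ x ∈ S ∩ closedBall 0 L, {y | Relation.ReflTransGen (Adj k S) x y}
  have hC : C.Finite := (hS _ isBounded_closedBall).biUnion fun x _ => hf x
  have hcl : Cl k S C := by
    refine ⟨fun y hy => ?_, fun x hx y hxy => ?_⟩
    · obtain ⟨x, hx, hy⟩ := mem_iUnion₂.1 hy
      induction hy with
      | refl => exact hx.1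
      | tail _ h _ => exact h.2.2.1
    · obtain ⟨x0, h0, hx⟩ := mem_iUnion₂.1 hx
      exact mem_iUnion₂.2 ⟨x0, h0, Relation.ReflTransGen.tail hx hxy⟩
  obtain ⟨R, hR⟩ := hC.isBounded.subset_closedBall 0
  refine ⟨{z | hn z ≤ M ∨ ∃ v ∈ C, v ∈ closedBall (pos ε z) r}, ?_, fun z hz => Or.inl hz,
    fun z y hz hy hzy => ?_⟩
  · refine ((finite_hn M).union (finite_hn ⌈2 * (R + r) / (√3 * ε)⌉)).subset ?_
    rintro z (hz | ⟨v, hv, hz⟩)
    · exact Or.inl hz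
    · refine Or.inr (Int.cast_le (R := ℝ).1 (le_trans ?_ (Int.le_ceil _)))
      rw [le_div_iff₀ (by positivity)]
      have a1 := lower hε.le z
      have a2 := hR hv
      rw [mem_closedBall, dist_zero_right] at a2
      rw [mem_closedBall, dist_comm, dist_eq_norm] at hz
      have a3 := norm_le_norm_sub_add (pos ε z) v
      linarith
  · have hd : Disjoint C (closedBall (pos ε y) r) :=
      disjoint_left.2 fun v hv hv' => hy (Or.inr ⟨v, hv, hv'⟩)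
    rcases hz with hz | hz
    · refine Or.inl (eq_empty_of_forall_notMem fun v hv => disjoint_left.1 hd ?_ hv.2)
      refine mem_iUnion₂.2 ⟨v, ⟨hv.1, ?_⟩, Relation.ReflTransGen.refl⟩
      have a1 : hn y ≤ M + 1 := by
        have := hn_add z (y - z)
        rw [add_sub_cancel] at this
        omega
      have a2 : (hn y : ℝ) ≤ M + 1 := by exact_mod_cast a1
      have a3 := upper hε.le y
      have a4 := hv.2
      rw [mem_closedBall, dist_eq_norm] at a4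
      have a5 := norm_le_norm_sub_add v (pos ε y)
      rw [mem_closedBall, dist_zero_right, hL]
      nlinarith
    · exact Or.inr ⟨C, hcl, hd, hz⟩

lemma summable_div {Λ : ℝ} (h0 : 0 ≤ Λ) (h1 : Λ < 1) {m : ℕ} (hm : 1 ≤ m) :
    Summable fun j : ℕ => Λ ^ (j / m) := by
  have : NeZero m := ⟨by omega⟩
  have h := (summable_geometric_of_lt_one h0 h1).mul_of_nonneg
    (Summable.of_finite (f := fun _ : Fin m => (1 : ℝ))) (fun _ => pow_nonneg h0 _)
    (fun _ => zero_le_one)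
  exact ((Nat.divModEquiv m).summable_iff.2 h).congr fun j => mul_one _

end PeiP

open PeiP in
theorem spei (h1 : SAnd) (h2 : SLat) : SPei := by
  intro k m r w ε q hm hε hw hq hΛ h Ω _ μ P hP
  have := hP.prob
  obtain ⟨Ch, c1, c2, c3⟩ := h2 m hm
  have hU : ∀ j : ℕ, UB univ (fun S => ∃ l ∈ Ch j (j / m), ∀ e ∈ l,
      Bad k r (pos ε e.1) (pos ε e.2) S) (3 * q * ((4 * m + 1) * q) ^ (j / m)) := by
    intro j
    refine (ub_exists (Ch j (j / m)) (W := univ) (p := fun _ => q ^ (j / m + 1))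
      fun l hl => ?_).mono le_rfl (fun _ _ hS => hS) ?_
    · obtain ⟨a1, a2, a3⟩ := c2 _ _ l hl
      exact (chain h1 hε hw h l a2 a3).mono (subset_univ _) (fun _ _ hS => hS) (by rw [a1])
    · have a1 : ((Ch j (j / m)).card : ℝ) ≤ 3 * (4 * m + 1) ^ (j / m) := by
        exact_mod_cast c1 j (j / m)
      rw [Finset.sum_const, nsmul_eq_mul]
      refine (mul_le_mul_of_nonneg_right a1 (pow_nonneg hq _)).trans_eq ?_
      rw [mul_pow, pow_succ]
      ring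
  choose G _ hG hG' using fun j => hU j Ω μ P hP
  have hs : ∑' j, μ (G j) ≠ ⊤ := by
    refine ne_top_of_le_ne_top (((summable_div (by positivity) hΛ hm).mul_left
      (3 * q)).tsum_ofReal_ne_top) (ENNReal.tsum_le_tsum fun j => ?_)
    rw [← ofReal_measureReal]
    exact ENNReal.ofReal_le_ofReal (hG j)
  filter_upwards [ae_eventually_notMem hs] with ω hω
  by_contra hf
  push Not at hf
  obtain ⟨M, hM⟩ := Filter.eventually_atTop.1 hω
  obtain ⟨B, b1, b2, b3⟩ := region (r := r) hε (hP.fin ω) hf M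
  obtain ⟨j, hj, l, hl, hB⟩ := c3 B M b1 b2
  exact hM j hj (hG' j ω ⟨l, hl, fun e he =>
    b3 _ _ (hB e he).1 (hB e he).2 ((c2 _ _ l hl).2.1 e he)⟩)

end Pool.Agent.P.MP_50fd71_pr
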