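import Pool.Agent.P.MP_50fd71_pr.Basic

/-!
Nearest neighbour percolation: summation over the position of a point.
-/

open MeasureTheory ProbabilityTheory Set Metric Bornology

noncomputable section

namespace Pool.Agent.P.MP_50fd71_pr

namespace PieceP

/-- index of the small square containing a point -/
def idx (η : ℝ) (x : ℂ) : ℤ × ℤ := (⌊2 * x.re / η⌋, ⌊2 * x.im / η⌋)

lemma meas_idx (η : ℝ) : Measurable (idx η) := by
  unfold idx
  fun_prop

lemma abs_le_of_floor {η a b : ℝ} (hη : 0 < η) (h : ⌊2 * a / η⌋ = ⌊2 * b / η⌋) :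
    |a - b| ≤ η / 2 := by
  have h1 := Int.abs_sub_lt_one_of_floor_eq_floor h
  have e : 2 * a / η - 2 * b / η = (a - b) * (2 / η) := by ring
  rw [e, abs_mul, abs_of_pos (by positivity : 0 < 2 / η), mul_div_assoc', div_lt_one hη] at h1
  linarith

lemma dist_le_of_idx {η : ℝ} (hη : 0 < η) {x y : ℂ} (h : idx η x = idx η y) : dist x y ≤ η := by
  have h1 := abs_le_of_floor hη (congrArg Prod.fst h)
  have h2 := abs_le_of_floor hη (congrArg Prod.snd h)
  have h3 := Complex.norm_le_abs_re_add_abs_im (x - y)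
  rw [Complex.sub_re, Complex.sub_im] at h3
  rw [dist_eq_norm]
  linarith

lemma floor_mem {η R a : ℝ} (hη : 0 < η) (h : |a| ≤ R) :
    ⌊2 * a / η⌋ ∈ Icc ⌊2 * (-R) / η⌋ ⌊2 * R / η⌋ := by
  rw [abs_le] at h
  constructor <;> apply Int.floor_mono <;> gcongr <;> linarith [h.1, h.2]

lemma finite_idx {η : ℝ} (hη : 0 < η) {U : Set ℂ} (hU : IsBounded U) : (idx η '' U).Finite := by
  obtain ⟨R, hR⟩ := hU.exists_norm_le
  refine ((finite_Icc ⌊2 * (-R) / η⌋ ⌊2 * R / η⌋).prod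
    (finite_Icc ⌊2 * (-R) / η⌋ ⌊2 * R / η⌋)).subset ?_
  rintro _ ⟨x, hx, rfl⟩
  exact ⟨floor_mem hη ((Complex.abs_re_le_norm x).trans (hR x hx)),
    floor_mem hη ((Complex.abs_im_le_norm x).trans (hR x hx))⟩

lemma one_piece (h1 : SAnd) (h2 : SSmall) {W U V : Set ℂ} {η p : ℝ} {B : Set ℂ → ℂ → Prop}
    (hW : MeasurableSet W) (hV : Ok V) (hVU : V ⊆ U) (hUW : U ⊆ W) (hη : 0 < η) {x₀ : ℂ}
    (hO : V ⊆ closedBall x₀ η)
    (h : UB (W \ closedBall x₀ η)
      (fun S => ∃ x ∈ U, S ∩ W ∩ closedBall x₀ η = {x} ∧ B S x) p) :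
    UB W (fun S => ∃ x ∈ S ∩ V, B S x) (ar V * (p + 5 * η ^ 2)) := by
  have hVW : V ⊆ W := hVU.trans hUW
  have hWO : Ok (closedBall x₀ η ∩ W) := (ok_closedBall x₀ η).inter hW
  have hR : Ok ((closedBall x₀ η ∩ W) \ V) := hWO.diff hV.1
  have a := (h1 _ _ _ _ _ _ (disjoint_left.2 fun x hx hx' => hx'.2 (hO hx)) (h2 V hV).2.1 h).mono
    (union_subset hVW sdiff_subset) (fun _ _ hS => hS) le_rfl
  have b := (h2 V hV).2.2.mono hVW (fun _ _ hS => hS) le_rfl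
  have c := (h1 _ _ _ _ _ _ disjoint_sdiff_right (h2 V hV).2.1 (h2 _ hR).2.1).mono
    (union_subset hVW (sdiff_subset.trans inter_subset_right)) (fun _ _ hS => hS) le_rfl
  refine ((a.or b).or c).mono le_rfl ?_ ?_
  · rintro S - ⟨x, hx, hB⟩
    by_cases hc : (S ∩ ((closedBall x₀ η ∩ W) \ V)).Nonempty
    · exact Or.inr ⟨⟨x, hx⟩, hc⟩
    by_cases hb : (S ∩ V).Nontrivial
    · exact Or.inl (Or.inr hb)
    refine Or.inl (Or.inl ⟨⟨x, hx⟩, x, hVU hx.2, ?_, hB⟩)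
    rw [not_nontrivial_iff] at hb
    refine eq_singleton_iff_unique_mem.2 ⟨⟨⟨hx.1, hVW hx.2⟩, hO hx.2⟩, fun y hy => ?_⟩
    refine hb ⟨hy.1.1, ?_⟩ hx
    by_contra hyV
    exact hc ⟨y, hy.1.1, ⟨hy.2, hy.1.2⟩, hyV⟩
  · have e1 := ar_diff hWO.2 hV.1
    rw [inter_eq_right.2 (subset_inter hO hVW)] at e1
    have e2 := ar_mono (inter_subset_left (s := closedBall x₀ η) (t := W)) isBounded_closedBall
    rw [ar_closedBall x₀ hη.le] at e2
    have e3 : Real.pi * η ^ 2 ≤ 5 * η ^ 2 := by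
      gcongr
      linarith [Real.pi_le_four]
    have e4 := mul_le_mul_of_nonneg_left (e2.trans e3) (ar_nonneg V)
    rw [e1]
    nlinarith

end PieceP

open PieceP in
theorem spiece (h1 : SAnd) (h2 : SSmall) : SPiece := by
  intro W U η p B hW hU hUW hη _ h
  have hfin := finite_idx hη hU.2
  have hm : ∀ i, MeasurableSet (idx η ⁻¹' {i}) := fun i => meas_idx η (measurableSet_singleton i)
  have key : ∀ i ∈ hfin.toFinset, UB W (fun S => ∃ x ∈ S ∩ (U ∩ idx η ⁻¹' {i}), B S x)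
      (ar (U ∩ idx η ⁻¹' {i}) * (p + 5 * η ^ 2)) := by
    intro i hi
    obtain ⟨x₀, hx₀, rfl⟩ := hfin.mem_toFinset.1 hi
    exact one_piece h1 h2 hW (hU.inter (hm _)) inter_subset_left hUW hη
      (fun x hx => dist_le_of_idx hη hx.2) (h x₀ hx₀)
  refine (ub_exists _ key).mono le_rfl ?_ ?_
  · rintro S - ⟨x, hx, hB⟩
    exact ⟨idx η x, hfin.mem_toFinset.2 ⟨x, hx.2, rfl⟩, x, ⟨hx.1, hx.2, rfl⟩, hB⟩
  · rw [← Finset.sum_mul]
    refine le_of_eq (congrArg (· * (p + 5 * η ^ 2)) ?_)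
    unfold ar
    rw [← measureReal_biUnion_finset ?_ ?_ ?_]
    · congr 1
      ext x
      simp only [mem_iUnion, Finite.mem_toFinset, mem_inter_iff, mem_preimage, mem_singleton_iff]
      exact ⟨fun ⟨_, _, hx, _⟩ => hx, fun hx => ⟨_, ⟨x, hx, rfl⟩, hx, rfl⟩⟩
    · intro i _ j _ hij
      exact disjoint_left.2 fun x hx hx' => hij (hx.2.symm.trans hx'.2)
    · exact fun i _ => hU.1.inter (hm i)
    · exact fun i _ => (hU.2.subset inter_subset_left).measure_lt_top.ne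

end Pool.Agent.P.MP_50fd71_pr
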