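import Pool.Agent.P.MP_50fd71_pr.Basic

/-!
Poisson tails: small counts, monotonicity and submultiplicativity.
-/

open MeasureTheory ProbabilityTheory Set Metric Bornology

noncomputable section

namespace Pool.Agent.P.MP_50fd71_pr

namespace SmallP

lemma tail {Ω : Type} [MeasurableSpace Ω] {μ : Measure Ω} {P : Ω → Set ℂ} (hP : Poi μ P)
    {A : Set ℂ} (hA : Ok A) (n : ℕ) : μ.real {ω | n ≤ cnt (P ω) A} = T n (ar A) := by
  have := hP.prob
  have e : {ω | n ≤ cnt (P ω) A} = (⋃ j ∈ Finset.range n, {ω | cnt (P ω) A = j})ᶜ := by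
    ext ω
    simp only [mem_ofPred_eq, mem_compl_iff, mem_iUnion, Finset.mem_range, not_exists]
    exact ⟨fun h i hi e => by omega, fun h => not_lt.1 fun hl => h _ hl rfl⟩
  have hm : ∀ j, MeasurableSet {ω | cnt (P ω) A = j} := fun j =>
    hP.meas A hA (MeasurableSet.of_discrete (s := {j}))
  rw [e, probReal_compl_eq_one_sub (Finset.measurableSet_biUnion _ fun j _ => hm j),
    measureReal_biUnion_finset _ (fun j _ => hm j), T, Finset.mul_sum]
  · congr 1
    refine Finset.sum_congr rfl fun j _ => ?_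
    rw [hP.law A hA j, mul_div_assoc]
  · intro i _ j _ hij
    exact disjoint_left.2 fun ω h1 h2 => hij (h1.symm.trans h2)

/-- Poisson weight -/
def pw (x : ℝ) (i : ℕ) : ℝ := Real.exp (-x) * (x ^ i / i.factorial)

lemma pw_nonneg {x : ℝ} (hx : 0 ≤ x) (i : ℕ) : 0 ≤ pw x i := by
  unfold pw
  positivity

lemma T_zero (x : ℝ) : T 0 x = 1 := by simp [T]

lemma T_succ (n : ℕ) (x : ℝ) : T (n + 1) x = T n x - pw x n := by
  simp only [T, pw, Finset.sum_range_succ]
  ring

lemma T_nonneg (k : ℕ) {x : ℝ} (hx : 0 ≤ x) : 0 ≤ T k x := by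
  have h := Real.sum_le_exp_of_nonneg hx k
  have h2 : Real.exp (-x) * Real.exp x = 1 := by rw [← Real.exp_add]; simp
  have h3 := mul_le_mul_of_nonneg_left h (Real.exp_pos (-x)).le
  unfold T
  linarith

lemma T_anti {x : ℝ} (hx : 0 ≤ x) {a b : ℕ} (h : a ≤ b) : T b x ≤ T a x := by
  induction b, h using Nat.le_induction with
  | base => exact le_rfl
  | succ n _ ih =>
    rw [T_succ]
    linarith [pw_nonneg hx n]

lemma hasSum_T (n : ℕ) (x : ℝ) : HasSum (fun j => pw x (j + n)) (T n x) := by
  have h : HasSum (fun i : ℕ => x ^ i / (i.factorial : ℝ)) (Real.exp x) := by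
    rw [Real.exp_eq_exp_ℝ]
    exact NormedSpace.expSeries_div_hasSum_exp x
  have h1 : HasSum (pw x) 1 := by
    have h2 := h.mul_left (Real.exp (-x))
    rwa [← Real.exp_add, neg_add_cancel, Real.exp_zero] at h2
  have h3 := (hasSum_nat_add_iff' n).2 h1
  rwa [show (1 - ∑ i ∈ Finset.range n, pw x i) = T n x by simp only [T, pw, Finset.mul_sum]] at h3

lemma fact_le {a b : ℕ} (h : a ≤ b) (n : ℕ) :
    b.factorial * (n + a).factorial ≤ a.factorial * (n + b).factorial := by
  induction n with
  | zero => simp [mul_comm]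
  | succ n ih =>
    rw [show n + 1 + a = (n + a) + 1 by ring, show n + 1 + b = (n + b) + 1 by ring,
      Nat.factorial_succ, Nat.factorial_succ, mul_left_comm, mul_left_comm a.factorial]
    exact Nat.mul_le_mul (by omega) ih

lemma pw_le {x : ℝ} (hx : 0 ≤ x) {a b : ℕ} (h : a ≤ b) (n : ℕ) :
    pw x a * pw x (n + b) ≤ pw x b * pw x (n + a) := by
  have e1 : pw x a * pw x (n + b) = Real.exp (-x) ^ 2 * x ^ (n + a + b) /
      ((a.factorial * (n + b).factorial : ℕ) : ℝ) := by
    unfold pw
    push_cast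
    field_simp
    ring
  have e2 : pw x b * pw x (n + a) = Real.exp (-x) ^ 2 * x ^ (n + a + b) /
      ((b.factorial * (n + a).factorial : ℕ) : ℝ) := by
    unfold pw
    push_cast
    field_simp
    ring
  rw [e1, e2]
  refine div_le_div_of_nonneg_left (by positivity) (by positivity) ?_
  exact_mod_cast fact_le h n

lemma ratio {x : ℝ} (hx : 0 ≤ x) {a b : ℕ} (h : a ≤ b) :
    T a x * T (b + 1) x ≤ T (a + 1) x * T b x := by
  have h1 : pw x a * T (b + 1) x ≤ pw x b * T (a + 1) x := by
    refine hasSum_le (fun j => ?_) ((hasSum_T (b + 1) x).mul_left _)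
      ((hasSum_T (a + 1) x).mul_left _)
    have := pw_le hx h (j + 1)
    rwa [show j + 1 + b = j + (b + 1) by ring, show j + 1 + a = j + (a + 1) by ring] at this
  have ea := T_succ a x
  have eb := T_succ b x
  have ea' : T a x = T (a + 1) x + pw x a := by linarith
  have eb' : T b x = T (b + 1) x + pw x b := by linarith
  rw [ea', eb']
  nlinarith

lemma submul (a b : ℕ) {x : ℝ} (hx : 0 ≤ x) : T (a + b) x ≤ T a x * T b x := by
  induction b with
  | zero => simp [T_zero]
  | succ b ih =>
    rcases (T_nonneg b hx).eq_or_lt with h0 | h0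
    · have h1 : T (a + (b + 1)) x ≤ T b x := T_anti hx (by omega)
      have h2 := mul_nonneg (T_nonneg a hx) (T_nonneg (b + 1) hx)
      linarith
    · have h1 := ratio hx (show b ≤ a + b by omega)
      have h2 := mul_le_mul_of_nonneg_left ih (T_nonneg (b + 1) hx)
      refine le_of_mul_le_mul_left ?_ h0
      rw [← add_assoc]
      nlinarith

lemma deriv_pw (n : ℕ) (x : ℝ) :
    HasDerivAt (fun y => pw y (n + 1)) (pw x n - pw x (n + 1)) x := by
  have h1 : HasDerivAt (fun y : ℝ => Real.exp (-y)) (-Real.exp (-x)) x := by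
    simpa using (hasDerivAt_neg x).exp
  have h2 := h1.mul ((hasDerivAt_pow (n + 1) x).div_const ((n + 1).factorial : ℝ))
  refine HasDerivAt.congr_deriv (f := fun y => pw y (n + 1)) h2 ?_
  simp only [pw, Nat.factorial_succ, Nat.add_sub_cancel]
  push_cast
  field_simp
  ring

lemma deriv_T (n : ℕ) (x : ℝ) : HasDerivAt (T (n + 1)) (pw x n) x := by
  induction n with
  | zero =>
    have h1 : HasDerivAt (fun y : ℝ => Real.exp (-y)) (-Real.exp (-x)) x := by
      simpa using (hasDerivAt_neg x).exp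
    have e : T 1 = fun y => 1 - Real.exp (-y) := by
      funext y
      simp [T]
    rw [e]
    simpa [pw] using h1.const_sub 1
  | succ n ih =>
    have e : T (n + 1 + 1) = fun y => T (n + 1) y - pw y (n + 1) := funext fun y => T_succ _ y
    rw [e]
    exact HasDerivAt.congr_deriv (ih.sub (deriv_pw n x)) (by ring)

lemma T_mono (k : ℕ) {x y : ℝ} (hx : 0 ≤ x) (h : x ≤ y) : T k x ≤ T k y := by
  cases k with
  | zero => simp [T_zero]
  | succ n =>
    have hd : Differentiable ℝ (T (n + 1)) := fun z => (deriv_T n z).differentiableAt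
    refine monotoneOn_of_deriv_nonneg (convex_Ici (0 : ℝ)) hd.continuous.continuousOn
      hd.differentiableOn (fun z hz => ?_) hx (hx.trans h) h
    rw [(deriv_T n z).deriv]
    exact pw_nonneg (interior_subset hz) n

end SmallP

theorem stail : STail :=
  ⟨fun k _ hx => SmallP.T_nonneg k hx, fun k _ _ hx h => SmallP.T_mono k hx h,
    fun a b _ hx => SmallP.submul a b hx⟩

theorem ssmall : SSmall := by
  intro A hA
  have h0 := ar_nonneg A
  have h1 := Real.one_sub_le_exp_neg (ar A)
  refine ⟨fun Ω _ μ P hP => ⟨{ω | cnt (P ω) A = 0}, ?_, ?_, fun ω hω => ?_⟩,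
    fun Ω _ μ P hP => ⟨{ω | 1 ≤ cnt (P ω) A}, ?_, ?_, fun ω hω => ?_⟩,
    fun Ω _ μ P hP => ⟨{ω | 2 ≤ cnt (P ω) A}, ?_, ?_, fun ω hω => ?_⟩⟩
  · exact meas_cnt P hA le_rfl (MeasurableSet.of_discrete (s := {0}))
  · rw [hP.law A hA 0]
    simp
  · simp only [mem_ofPred_eq, cnt]
    rw [hω, Set.ncard_empty]
  · exact meas_cnt P hA le_rfl (MeasurableSet.of_discrete (s := Ici 1))
  · rw [SmallP.tail hP hA]
    simp only [T, Finset.sum_range_succ, Finset.range_zero, Finset.sum_empty]
    norm_num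
    linarith
  · exact (Set.ncard_pos (hP.fin ω A hA.2)).2 hω
  · exact meas_cnt P hA le_rfl (MeasurableSet.of_discrete (s := Ici 2))
  · rw [SmallP.tail hP hA]
    simp only [T, Finset.sum_range_succ, Finset.range_zero, Finset.sum_empty]
    norm_num
    nlinarith
  · have := (hP.fin ω A hA.2).to_subtype
    exact Set.one_lt_ncard_iff_nontrivial.2 hω

end Pool.Agent.P.MP_50fd71_pr
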