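import Pool.Agent.P.MP_50fd71_pr.Basic

/-!
Disjoint occurrence of points of a Poisson process in two sets.
-/

open MeasureTheory ProbabilityTheory Set Metric Bornology

noncomputable section

namespace Pool.Agent.P.MP_50fd71_pr

namespace TwoP

lemma le_cnt {S A : Set ℂ} (hS : LF S) (hA : IsBounded A) (X : Finset ℂ) (h : ↑X ⊆ S ∩ A) :
    X.card ≤ cnt S A := by
  rw [← Set.ncard_coe_finset]
  exact Set.ncard_le_ncard h (hS A hA)

lemma cnt_union {S D C : Set ℂ} (hS : LF S) (hD : IsBounded D) (hC : IsBounded C)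
    (h : Disjoint D C) : cnt S (D ∪ C) = cnt S D + cnt S C := by
  unfold cnt
  rw [inter_union_distrib_left]
  exact Set.ncard_union_eq (h.mono inter_subset_right inter_subset_right) (hS D hD) (hS C hC)

lemma two_le {S A B : Set ℂ} {a b : ℕ} (hS : LF S) (hA : IsBounded A) (hB : IsBounded B)
    (h : Two S A a B b) : (a - cnt S (A \ B)) + (b - cnt S (B \ A)) ≤ cnt S (A ∩ B) := by
  classical
  obtain ⟨X, Y, hXY, hX, hY, hXA, hYB⟩ := h
  have h1 : (X.filter fun x => ¬ x ∈ B).card ≤ cnt S (A \ B) :=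
    le_cnt hS (hA.subset sdiff_subset) _ fun x hx => by
      have hx' := Finset.mem_filter.1 (Finset.mem_coe.1 hx)
      have := hXA (Finset.mem_coe.2 hx'.1)
      exact ⟨this.1, this.2, hx'.2⟩
  have h2 : (Y.filter fun x => ¬ x ∈ A).card ≤ cnt S (B \ A) :=
    le_cnt hS (hB.subset sdiff_subset) _ fun x hx => by
      have hx' := Finset.mem_filter.1 (Finset.mem_coe.1 hx)
      have := hYB (Finset.mem_coe.2 hx'.1)
      exact ⟨this.1, this.2, hx'.2⟩
  have h3 : ((X.filter fun x => x ∈ B) ∪ (Y.filter fun x => x ∈ A)).card ≤ cnt S (A ∩ B) :=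
    le_cnt hS (hA.subset inter_subset_left) _ fun x hx => by
      rcases Finset.mem_union.1 (Finset.mem_coe.1 hx) with hx | hx
      · have hx' := Finset.mem_filter.1 hx
        have := hXA (Finset.mem_coe.2 hx'.1)
        exact ⟨this.1, this.2, hx'.2⟩
      · have hx' := Finset.mem_filter.1 hx
        have := hYB (Finset.mem_coe.2 hx'.1)
        exact ⟨this.1, hx'.2, this.2⟩
  rw [Finset.card_union_of_disjoint
    (hXY.mono (Finset.filter_subset _ _) (Finset.filter_subset _ _))] at h3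
  have h4 := Finset.card_filter_add_card_filter_not (s := X) fun x => x ∈ B
  have h5 := Finset.card_filter_add_card_filter_not (s := Y) fun x => x ∈ A
  omega

variable {Ω : Type} [MeasurableSpace Ω] {μ : Measure Ω} {P : Ω → Set ℂ}

lemma ms (hP : Poi μ P) {A : Set ℂ} (hA : Ok A) (s : Set ℕ) :
    MeasurableSet {ω | cnt (P ω) A ∈ s} :=
  hP.meas A hA (MeasurableSet.of_discrete (s := s))

lemma tri (hP : Poi μ P) {A B C : Set ℂ} (hA : Ok A) (hB : Ok B) (hC : Ok C)
    (hAB : Disjoint A B) (hAC : Disjoint A C) (hBC : Disjoint B C) (s t u : Set ℕ) :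
    μ.real {ω | cnt (P ω) A ∈ s ∧ cnt (P ω) B ∈ t ∧ cnt (P ω) C ∈ u} =
      μ.real {ω | cnt (P ω) A ∈ s} * μ.real {ω | cnt (P ω) B ∈ t} *
        μ.real {ω | cnt (P ω) C ∈ u} := by
  have hi := hP.ind 3 ![A, B, C] (fun i => by fin_cases i <;> simpa) (by
    intro i j hij
    fin_cases i <;> fin_cases j <;>
      first
        | exact absurd rfl hij
        | exact hAB
        | exact hAC
        | exact hBC
        | exact hAB.symm
        | exact hAC.symm
        | exact hBC.symm)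
  have h := hi.measure_inter_preimage_eq_mul Finset.univ (sets := ![s, t, u])
    fun i _ => MeasurableSet.of_discrete
  have e : (⋂ i ∈ (Finset.univ : Finset (Fin 3)),
      (fun ω => cnt (P ω) (![A, B, C] i)) ⁻¹' (![s, t, u] i)) =
      {ω | cnt (P ω) A ∈ s ∧ cnt (P ω) B ∈ t ∧ cnt (P ω) C ∈ u} := by
    ext ω
    simp [Fin.forall_fin_succ]
  rw [e, Fin.prod_univ_three] at h
  simp only [measureReal_def, h, ENNReal.toReal_mul]
  rfl

lemma pair (hP : Poi μ P) {A B : Set ℂ} (hA : Ok A) (hB : Ok B) (hAB : Disjoint A B)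
    (s t : Set ℕ) :
    μ.real {ω | cnt (P ω) A ∈ s ∧ cnt (P ω) B ∈ t} =
      μ.real {ω | cnt (P ω) A ∈ s} * μ.real {ω | cnt (P ω) B ∈ t} := by
  have := hP.prob
  have h := tri hP hA hB (C := ∅) ⟨MeasurableSet.empty, isBounded_empty⟩ hAB
    (disjoint_empty _) (disjoint_empty _) s t univ
  simpa using h

lemma tail (hP : Poi μ P) {A : Set ℂ} (hA : Ok A) (n : ℕ) :
    μ.real {ω | cnt (P ω) A ∈ Ici n} = T n (ar A) := by
  have := hP.prob
  have e : {ω | cnt (P ω) A ∈ Ici n} = (⋃ j ∈ Finset.range n, {ω | cnt (P ω) A = j})ᶜ := by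
    ext ω
    simp only [mem_ofPred_eq, mem_Ici, mem_compl_iff, mem_iUnion, Finset.mem_range, not_exists]
    exact ⟨fun h i hi e => by omega, fun h => not_lt.1 fun hl => h _ hl rfl⟩
  have hm : ∀ j, MeasurableSet {ω | cnt (P ω) A = j} := fun j => ms hP hA {j}
  rw [e, probReal_compl_eq_one_sub (Finset.measurableSet_biUnion _ fun j _ => hm j),
    measureReal_biUnion_finset _ (fun j _ => hm j), T, Finset.mul_sum]
  · congr 1
    refine Finset.sum_congr rfl fun j _ => ?_
    rw [hP.law A hA j, mul_div_assoc]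
  · intro i _ j _ hij
    exact disjoint_left.2 fun ω h1 h2 => hij (h1.symm.trans h2)

lemma one (hP : Poi μ P) {D C : Set ℂ} (hD : Ok D) (hC : Ok C) (h : Disjoint D C) (a : ℕ) :
    ∑ i ∈ Finset.range (a + 1), μ.real {ω | cnt (P ω) D ∈ {n | min n a = i}} * T (a - i) (ar C) ≤
      T a (ar (D ∪ C)) := by
  have := hP.prob
  rw [← tail hP (hD.union hC) a]
  have e : ∀ i, μ.real {ω | cnt (P ω) D ∈ {n | min n a = i}} * T (a - i) (ar C) =
      μ.real {ω | cnt (P ω) D ∈ {n | min n a = i} ∧ cnt (P ω) C ∈ Ici (a - i)} := fun i => by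
    rw [pair hP hD hC h, tail hP hC]
  simp only [e]
  rw [← measureReal_biUnion_finset]
  · refine measureReal_mono ?_
    intro ω hω
    simp only [mem_iUnion, mem_ofPred_eq, mem_Ici] at hω ⊢
    obtain ⟨i, -, h1, h2⟩ := hω
    rw [cnt_union (hP.fin ω) hD.2 hC.2 h]
    omega
  · intro i _ j _ hij
    exact disjoint_left.2 fun ω h1 h2 => hij (h1.1.symm.trans h2.1)
  · exact fun i _ => (ms hP hD {n | min n a = i}).inter (ms hP hC (Ici (a - i)))

end TwoP

open _root_.Pool.Agent.P.MP_50fd71_pr.TwoP in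
theorem stwo (h : STail) : STwo := by
  intro A B a b hA hB Ω _ μ P hP
  have := hP.prob
  have h1 : Ok (A \ B) := hA.diff hB.1
  have h2 : Ok (B \ A) := hB.diff hA.1
  have h3 : Ok (A ∩ B) := hA.inter hB.1
  have d12 : Disjoint (A \ B) (B \ A) := disjoint_sdiff_sdiff
  have d13 : Disjoint (A \ B) (A ∩ B) := disjoint_sdiff_inter
  have d23 : Disjoint (B \ A) (A ∩ B) := by
    rw [inter_comm]
    exact disjoint_sdiff_inter
  refine ⟨{ω | (a - cnt (P ω) (A \ B)) + (b - cnt (P ω) (B \ A)) ≤ cnt (P ω) (A ∩ B)}, ?_, ?_,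
    fun ω hω => two_le (hP.fin ω) hA.2 hB.2 hω⟩
  · have m1 := meas_cnt P (W := A ∪ B) h1 (sdiff_subset.trans subset_union_left)
    have m2 := meas_cnt P (W := A ∪ B) h2 (sdiff_subset.trans subset_union_right)
    have m3 := meas_cnt P (W := A ∪ B) h3 (inter_subset_left.trans subset_union_left)
    exact (m1.prodMk (m2.prodMk m3)) (MeasurableSet.of_discrete
      (s := {p : ℕ × ℕ × ℕ | (a - p.1) + (b - p.2.1) ≤ p.2.2}))
  · have hs : {ω | (a - cnt (P ω) (A \ B)) + (b - cnt (P ω) (B \ A)) ≤ cnt (P ω) (A ∩ B)} ⊆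
        ⋃ p ∈ Finset.range (a + 1) ×ˢ Finset.range (b + 1),
          {ω | cnt (P ω) (A \ B) ∈ {n | min n a = p.1} ∧ cnt (P ω) (B \ A) ∈ {n | min n b = p.2} ∧
            cnt (P ω) (A ∩ B) ∈ Ici ((a - p.1) + (b - p.2))} := by
      intro ω hω
      simp only [mem_iUnion, mem_ofPred_eq, mem_Ici, Finset.mem_product, Finset.mem_range] at hω ⊢
      refine ⟨(min (cnt (P ω) (A \ B)) a, min (cnt (P ω) (B \ A)) b), ⟨?_, ?_⟩, rfl, rfl, ?_⟩ <;>
        simp only [] <;> omega
    refine (measureReal_mono hs (measure_ne_top _ _)).trans ((measureReal_biUnion_finset_le _ _).trans ?_)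
    have e1 : T a (ar A) = T a (ar ((A \ B) ∪ (A ∩ B))) := by rw [sdiff_union_inter]
    have e2 : T b (ar B) = T b (ar ((B \ A) ∪ (A ∩ B))) := by
      rw [inter_comm, sdiff_union_inter]
    rw [e1, e2]
    refine le_trans ?_ (mul_le_mul (one hP h1 h3 d13 a) (one hP h2 h3 d23 b)
      (Finset.sum_nonneg fun i _ => mul_nonneg measureReal_nonneg (h.1 _ _ (ar_nonneg _)))
      (h.1 _ _ (ar_nonneg _)))
    rw [Finset.sum_mul_sum, ← Finset.sum_product']
    refine Finset.sum_le_sum fun p _ => ?_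
    rw [tri hP h1 h2 h3 d12 d13 d23, tail hP h3, mul_mul_mul_comm]
    exact mul_le_mul_of_nonneg_left (h.2.2 _ _ _ (ar_nonneg _))
      (mul_nonneg measureReal_nonneg measureReal_nonneg)

end Pool.Agent.P.MP_50fd71_pr
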