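import Pool.Agent.P.MP_50fd71_pr.Basic

/-!
The boundary contour of a finite set of sites of the triangular lattice.
-/

open Set

noncomputable section

namespace Pool.Agent.P.MP_50fd71_pr.LatP

/-- rotation by sixty degrees -/
def rot (d : ℤ × ℤ) : ℤ × ℤ := (-d.2, d.1 + d.2)

lemma hn_le_iff {p : ℤ × ℤ} {n : ℤ} : hn p ≤ n ↔
    -n ≤ p.1 ∧ p.1 ≤ n ∧ -n ≤ p.2 ∧ p.2 ≤ n ∧ -n ≤ p.1 + p.2 ∧ p.1 + p.2 ≤ n := by
  simp only [hn, max_le_iff, abs_le]
  tauto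

lemma hn_lt_iff {p : ℤ × ℤ} {n : ℤ} : hn p < n ↔
    -n < p.1 ∧ p.1 < n ∧ -n < p.2 ∧ p.2 < n ∧ -n < p.1 + p.2 ∧ p.1 + p.2 < n := by
  simp only [hn, max_lt_iff, abs_lt]
  tauto

lemma hn_congr {p q : ℤ × ℤ} (h : ∀ n, hn p ≤ n ↔ hn q ≤ n) : hn p = hn q :=
  le_antisymm ((h _).2 le_rfl) ((h _).1 le_rfl)

lemma hn_rot (d : ℤ × ℤ) : hn (rot d) = hn d := hn_congr fun n => by
  simp only [hn_le_iff, rot]
  omega

lemma hn_neg (d : ℤ × ℤ) : hn (-d) = hn d := hn_congr fun n => by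
  simp only [hn_le_iff, Prod.fst_neg, Prod.snd_neg]
  omega

lemma hn_sub_rot (d : ℤ × ℤ) : hn (d - rot d) = hn d := hn_congr fun n => by
  simp only [hn_le_iff, rot, Prod.fst_sub, Prod.snd_sub]
  omega

lemma hn_add_le (p q : ℤ × ℤ) : hn (p + q) ≤ hn p + hn q := by
  have h1 := hn_le_iff.1 (le_refl (hn p))
  have h2 := hn_le_iff.1 (le_refl (hn q))
  simp only [hn_le_iff, Prod.fst_add, Prod.snd_add]
  omega

/-- boundary edge -/
def Bd (B : Set (ℤ × ℤ)) (e : (ℤ × ℤ) × (ℤ × ℤ)) : Prop :=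
  e.1 ∈ B ∧ e.2 ∉ B ∧ hn (e.2 - e.1) = 1

open Classical in
/-- the next boundary edge along the contour -/
def nx (B : Set (ℤ × ℤ)) (e : (ℤ × ℤ) × (ℤ × ℤ)) : (ℤ × ℤ) × (ℤ × ℤ) :=
  if e.1 + rot (e.2 - e.1) ∈ B then (e.1 + rot (e.2 - e.1), e.2) else (e.1, e.1 + rot (e.2 - e.1))

variable {B : Set (ℤ × ℤ)} {e f : (ℤ × ℤ) × (ℤ × ℤ)}

lemma Bd.nx (h : Bd B e) : Bd B (nx B e) := by
  unfold LatP.nx
  split_ifs with h1
  · refine ⟨h1, h.2.1, ?_⟩
    rw [← h.2.2, ← hn_sub_rot (e.2 - e.1)]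
    exact congrArg hn (sub_add_eq_sub_sub _ _ _)
  · refine ⟨h.1, h1, ?_⟩
    rw [← h.2.2, ← hn_rot (e.2 - e.1)]
    exact congrArg hn (add_sub_cancel_left _ _)

lemma Bd.iter (h : Bd B e) (n : ℕ) : Bd B ((LatP.nx B)^[n] e) := by
  induction n with
  | zero => exact h
  | succ n ih => rw [Function.iterate_succ_apply']; exact ih.nx

lemma nx_inj (he : Bd B e) (hf : Bd B f) (h : nx B e = nx B f) : e = f := by
  obtain ⟨⟨a, b⟩, c, d⟩ := e
  obtain ⟨⟨a', b'⟩, c', d'⟩ := f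
  unfold nx at h
  split_ifs at h with h1 h2 h2 <;> simp only [rot, Prod.mk.injEq, Prod.mk_add_mk, Prod.mk_sub_mk] at h
  · simp only [Prod.mk.injEq]; omega
  · refine absurd he.1 ?_
    rw [show ((a, b), c, d).1 = ((a', b'), c', d').2 by simp only [Prod.mk.injEq]; omega]
    exact hf.2.1
  · refine absurd hf.1 ?_
    rw [show ((a', b'), c', d').1 = ((a, b), c, d).2 by simp only [Prod.mk.injEq]; omega]
    exact he.2.1
  · simp only [Prod.mk.injEq]; omega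

lemma finite_hn (n : ℤ) : {p : ℤ × ℤ | hn p ≤ n}.Finite :=
  ((finite_Icc (-n) n).prod (finite_Icc (-n) n)).subset fun p hp => by
    have := hn_le_iff.1 hp
    simp only [mem_prod, mem_Icc]
    omega

lemma finite_bd (hB : B.Finite) : {e | Bd B e}.Finite := by
  refine ((hB.prod (finite_hn 1)).image fun p => (p.1, p.1 + p.2)).subset fun e he => ?_
  exact ⟨(e.1, e.2 - e.1), ⟨he.1, he.2.2.le⟩, by simp⟩

section par

variable {E : Set ((ℤ × ℤ) × (ℤ × ℤ))}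

open Classical in
/-- indicator of an unoriented edge -/
def chi (E : Set ((ℤ × ℤ) × (ℤ × ℤ))) (x y : ℤ × ℤ) : ZMod 2 :=
  if (x, y) ∈ E ∨ (y, x) ∈ E then 1 else 0

lemma chi_comm (x y : ℤ × ℤ) : chi E x y = chi E y x := by
  classical
  exact if_congr or_comm rfl rfl

lemma chi_zero (h : ∀ e ∈ E, Bd B e) {x y : ℤ × ℤ} (hxy : x ∈ B ↔ y ∈ B) : chi E x y = 0 := by
  refine if_neg ?_
  rintro (h1 | h1)
  · exact (h _ h1).2.1 (hxy.1 (h _ h1).1)
  · exact (h _ h1).2.1 (hxy.2 (h _ h1).1)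

open Classical in
lemma chi_eq (h : ∀ e ∈ E, Bd B e) {x y : ℤ × ℤ} (hx : x ∈ B) :
    chi E x y = if (x, y) ∈ E then 1 else 0 := by
  have : (y, x) ∉ E := fun h1 => (h _ h1).2.1 hx
  simp only [chi, this, or_false]

lemma tri1 (h : ∀ e ∈ E, Bd B e) (h' : ∀ e, Bd B e → (nx B e ∈ E ↔ e ∈ E)) {x y z : ℤ × ℤ}
    (hd : hn (y - x) = 1) (hz : z = x + rot (y - x)) (hx : x ∈ B) (hy : y ∉ B) :
    chi E x y + chi E y z + chi E z x = 0 := by
  classical
  have h1 := h' (x, y) ⟨hx, hy, hd⟩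
  have h2 : ∀ t : ZMod 2, t + t = 0 := by decide
  by_cases hw : z ∈ B
  · rw [nx, ← hz, if_pos hw] at h1
    rw [chi_zero h (iff_of_true hw hx), chi_comm y z, chi_eq h hx, chi_eq h hw, add_zero,
      if_congr h1 rfl rfl, h2]
  · rw [nx, ← hz, if_neg hw] at h1
    rw [chi_zero h (iff_of_false hy hw), chi_comm z x, chi_eq h hx, chi_eq h hx, add_zero,
      if_congr h1 rfl rfl, h2]

lemma tri (h : ∀ e ∈ E, Bd B e) (h' : ∀ e, Bd B e → (nx B e ∈ E ↔ e ∈ E)) {x y z : ℤ × ℤ}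
    (hd : hn (y - x) = 1) (hz : z = x + rot (y - x)) :
    chi E x y + chi E y z + chi E z x = 0 := by
  have d2 : hn (z - y) = 1 := by
    rw [← hd, ← hn_sub_rot (y - x), ← hn_neg, hz]; congr 1; abel
  have d3 : hn (x - z) = 1 := by
    rw [← hd, ← hn_rot (y - x), ← hn_neg, hz]; congr 1; abel
  have e2 : x = y + rot (z - y) := by
    rw [hz]; ext <;> simp [rot] <;> ring
  have e3 : y = z + rot (x - z) := by
    rw [hz]; ext <;> simp [rot] <;> ring
  have k1 := tri1 h h' hd hz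
  have k2 := tri1 h h' d2 e2
  have k3 := tri1 h h' d3 e3
  by_cases hx : x ∈ B <;> by_cases hy : y ∈ B <;> by_cases hw : z ∈ B
  · rw [chi_zero h (iff_of_true hx hy), chi_zero h (iff_of_true hy hw),
      chi_zero h (iff_of_true hw hx)]; simp
  · linear_combination k2 hy hw
  · exact k1 hx hy
  · exact k1 hx hy
  · linear_combination k3 hw hx
  · linear_combination k2 hy hw
  · linear_combination k3 hw hx
  · rw [chi_zero h (iff_of_false hx hy), chi_zero h (iff_of_false hy hw),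
      chi_zero h (iff_of_false hw hx)]; simp

lemma tele (u : ℕ → ZMod 2) (n : ℕ) : ∑ i ∈ Finset.range n, (u i + u (i + 1)) = u 0 + u n := by
  have h2 : ∀ t : ZMod 2, t + t = 0 := by decide
  induction n with
  | zero => simp [h2]
  | succ n ih => rw [Finset.sum_range_succ, ih]; linear_combination h2 (u n)

lemma row_zero (h : ∀ e ∈ E, Bd B e) (h' : ∀ e, Bd B e → (nx B e ∈ E ↔ e ∈ E)) {N : ℕ}
    (hN : ∀ z ∈ B, hn z < N) :
    ∑ i ∈ Finset.range (N + N), chi E ((i : ℤ) - N, 0) ((i : ℤ) - N + 1, 0) = 0 := by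
  have h2 : ∀ t : ZMod 2, t + t = 0 := by decide
  have hz : ∀ x y : ℤ × ℤ, ¬ hn x < N → ¬ hn y < N → chi E x y = 0 := fun x y hx hy =>
    chi_zero h (iff_of_false (fun h => hx (hN _ h)) fun h => hy (hN _ h))
  let S : ℤ → ZMod 2 := fun b =>
    ∑ i ∈ Finset.range (N + N), chi E ((i : ℤ) - N, b) ((i : ℤ) - N + 1, b)
  have step : ∀ b, S (b + 1) = S b := by
    intro b
    have h3 : S b + S (b + 1) = 0 := by
      rw [← Finset.sum_add_distrib]
      refine (Finset.sum_congr rfl fun i _ => ?_).trans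
        ((tele (fun i => chi E ((i : ℤ) - N, b) ((i : ℤ) - N, b + 1)) (N + N)).trans ?_)
      · have t1 := tri h h' (x := ((i : ℤ) - N, b)) (y := ((i : ℤ) - N + 1, b))
          (z := ((i : ℤ) - N, b + 1)) (by simp [hn]) (by simp [rot])
        have t2 := tri h h' (x := ((i : ℤ) - N + 1, b)) (y := ((i : ℤ) - N + 1, b + 1))
          (z := ((i : ℤ) - N, b + 1)) (by simp [hn]) (by simp [rot])
        rw [chi_comm ((i : ℤ) - N, b + 1)] at t1 t2
        rw [chi_comm ((i : ℤ) - N + 1, b + 1)] at t2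
        rw [show (((i + 1 : ℕ) : ℤ) - N) = (i : ℤ) - N + 1 by push_cast; ring]
        linear_combination t1 + t2 - h2 (chi E ((i : ℤ) - N + 1, b) ((i : ℤ) - N, b + 1))
          - h2 (chi E ((i : ℤ) - N, b) ((i : ℤ) - N, b + 1))
          - h2 (chi E ((i : ℤ) - N + 1, b) ((i : ℤ) - N + 1, b + 1))
      · rw [hz, hz, add_zero] <;> simp only [hn_lt_iff] <;> omega
    linear_combination h3 - h2 (S b)
  have h4 : ∀ n : ℕ, S n = S 0 := fun n => by
    induction n with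
    | zero => rfl
    | succ n ih => rw [← ih, ← step n]; rfl
  refine (h4 N).symm.trans (Finset.sum_eq_zero fun i _ => ?_)
  apply hz <;> simp only [hn_lt_iff] <;> omega

end par

/-- some contour through the positive axis reaches the left half of the lattice -/
theorem reach (hB : B.Finite) (h0 : (0 : ℤ × ℤ) ∈ B) :
    ∃ (j : ℕ) (e : (ℤ × ℤ) × (ℤ × ℤ)), Bd B e ∧
      (e = (((j : ℤ), 0), ((j : ℤ) + 1, 0)) ∨ e = (((j : ℤ) + 1, 0), ((j : ℤ), 0))) ∧
      ∃ K, ((nx B)^[K] e).1.1 ≤ 0 ∧ ((nx B)^[K] e).2.1 ≤ 0 := by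
  classical
  by_contra hcon
  let E : Set ((ℤ × ℤ) × (ℤ × ℤ)) := {f | ∃ (j : ℕ) (e : (ℤ × ℤ) × (ℤ × ℤ)), Bd B e ∧
    (e = (((j : ℤ), 0), ((j : ℤ) + 1, 0)) ∨ e = (((j : ℤ) + 1, 0), ((j : ℤ), 0))) ∧
    ∃ K, (nx B)^[K] e = f}
  have h : ∀ e ∈ E, Bd B e := by
    rintro _ ⟨j, e, h1, -, K, rfl⟩
    exact h1.iter K
  have hm : MapsTo (nx B) E E := by
    rintro _ ⟨j, e, h1, h2, K, rfl⟩
    exact ⟨j, e, h1, h2, K + 1, Function.iterate_succ_apply' _ _ _⟩
  have hs : SurjOn (nx B) E E :=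
    ((((finite_bd hB).subset h).injOn_iff_bijOn_of_mapsTo hm).1
      fun e he f hf => nx_inj (h e he) (h f hf)).surjOn
  have h' : ∀ e, Bd B e → (nx B e ∈ E ↔ e ∈ E) := fun e he =>
    ⟨fun h1 => by
      obtain ⟨f, hf, h2⟩ := hs h1
      exact nx_inj (h f hf) he h2 ▸ hf, fun h1 => hm h1⟩
  obtain ⟨N, hN⟩ : ∃ N : ℕ, ∀ z ∈ B, hn z < N := by
    obtain ⟨c, hc⟩ := (hB.image hn).bddAbove
    refine ⟨c.toNat + 1, fun z hz => ?_⟩
    have := hc (mem_image_of_mem hn hz)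
    omega
  have key := row_zero h h' hN
  rw [Finset.sum_range_add, Finset.sum_eq_zero, zero_add] at key
  · let β : ℕ → ZMod 2 := fun j => if ((j : ℤ), (0 : ℤ)) ∈ B then 1 else 0
    have h1 : ∀ j : ℕ, chi E (((N + j : ℕ) : ℤ) - N, 0) (((N + j : ℕ) : ℤ) - N + 1, 0) =
        β j + β (j + 1) := by
      intro j
      rw [show ((N + j : ℕ) : ℤ) - N = j by push_cast; ring]
      simp only [β, Nat.cast_add, Nat.cast_one]
      by_cases a1 : ((j : ℤ), (0 : ℤ)) ∈ B <;> by_cases a2 : ((j : ℤ) + 1, (0 : ℤ)) ∈ B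
      · rw [chi_zero h (iff_of_true a1 a2), if_pos a1, if_pos a2]; decide
      · rw [chi, if_pos (Or.inl ⟨j, _, ⟨a1, a2, by simp [hn]⟩, Or.inl rfl, 0, rfl⟩), if_pos a1,
          if_neg a2, add_zero]
      · rw [chi, if_pos (Or.inr ⟨j, _, ⟨a2, a1, by simp [hn]⟩, Or.inr rfl, 0, rfl⟩), if_neg a1,
          if_pos a2, zero_add]
      · rw [chi_zero h (iff_of_false a1 a2), if_neg a1, if_neg a2, add_zero]
    rw [Finset.sum_congr rfl fun j _ => h1 j, tele] at key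
    have h2 : ((N : ℤ), (0 : ℤ)) ∉ B := fun h => by
      have := hn_lt_iff.1 (hN _ h)
      omega
    simp only [β, Nat.cast_zero, if_neg h2, add_zero] at key
    rw [if_pos (by exact h0)] at key
    exact one_ne_zero key
  · intro i hi
    have hi' := Finset.mem_range.1 hi
    refine if_neg ?_
    rintro (⟨j, e, h1, h2, K, h3⟩ | ⟨j, e, h1, h2, K, h3⟩) <;>
      exact hcon ⟨j, e, h1, h2, K, by rw [h3]; constructor <;> simp only <;> omega⟩

end Pool.Agent.P.MP_50fd71_pr.LatP
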