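import Pool.Agent.P.MP_50fd71_pr.Basic

/-!
Summation over the boxes, and lower bounds for the areas of the two lenses.
-/

open MeasureTheory ProbabilityTheory Set Metric Bornology

noncomputable section

namespace Pool.Agent.P.MP_50fd71_pr

namespace LocP

lemma exists_step (f : ℕ → ℝ) (x : ℝ) (h0 : f 0 ≤ x) :
    ∀ m : ℕ, 0 < m → x ≤ f m → ∃ c < m, f c ≤ x ∧ x ≤ f (c + 1) := by
  intro m
  induction m with
  | zero => intro h; exact absurd h (lt_irrefl 0)
  | succ m ih =>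
    intro _ hm
    rcases Nat.eq_zero_or_pos m with rfl | hpos
    · exact ⟨0, Nat.zero_lt_one, h0, hm⟩
    · by_cases hx : x ≤ f m
      · obtain ⟨c, hc, h1, h2⟩ := ih hpos hx
        exact ⟨c, Nat.lt_succ_of_lt hc, h1, h2⟩
      · exact ⟨m, Nat.lt_succ_self m, (not_le.1 hx).le, hm⟩

lemma ok_DD (r : ℝ) : Ok (DD r) := ok_closedBall _ _

lemma normSq_le {r : ℝ} {u : ℂ} (hu : u ∈ DD r) : ‖u‖ ^ 2 ≤ 2 * r * u.re := by
  have h1 : ‖u - r‖ ≤ r := by simpa [DD, dist_eq_norm] using hu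
  have h2 : ‖u - r‖ ^ 2 ≤ r ^ 2 := pow_le_pow_left₀ (norm_nonneg _) h1 2
  rw [Complex.sq_norm, Complex.normSq_apply] at h2 ⊢
  simp only [Complex.sub_re, Complex.ofReal_re, Complex.sub_im, Complex.ofReal_im, sub_zero] at h2
  nlinarith

lemma arg_le {r : ℝ} (hr : 0 < r) {u : ℂ} (hu : u ∈ DD r) :
    |u.arg| ≤ Real.pi / 2 - ‖u‖ / (2 * r) := by
  rcases eq_or_ne u 0 with rfl | h0
  · simp only [Complex.arg_zero, abs_zero, norm_zero, zero_div, sub_zero]
    positivity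
  have hn : 0 < ‖u‖ := norm_pos_iff.2 h0
  have h1 := normSq_le hu
  have hre : 0 ≤ u.re := by
    by_contra h
    have h' : u.re < 0 := not_le.1 h
    nlinarith [mul_pos hr (neg_pos.2 h')]
  have h2 : |u.arg| ≤ Real.pi / 2 := Complex.abs_arg_le_pi_div_two_iff.2 hre
  have h3 : Real.sin (Real.pi / 2 - |u.arg|) ≤ Real.pi / 2 - |u.arg| :=
    Real.sin_le (by linarith)
  rw [Real.sin_pi_div_two_sub, Real.cos_abs, Complex.cos_arg h0] at h3
  have h4 : ‖u‖ / (2 * r) ≤ u.re / ‖u‖ := by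
    rw [div_le_div_iff₀ (by positivity) hn]
    nlinarith
  linarith

lemma norm_le {r : ℝ} (hr : 0 < r) {u : ℂ} (hu : u ∈ DD r) : ‖u‖ ≤ 2 * r := by
  have h1 : ‖u - r‖ ≤ r := by simpa [DD, dist_eq_norm] using hu
  have h2 : ‖u‖ ≤ ‖u - r‖ + ‖(r : ℂ)‖ := by
    simpa using norm_add_le (u - r) (r : ℂ)
  rw [Complex.norm_real, Real.norm_eq_abs, abs_of_pos hr] at h2
  linarith

lemma acl_le {x : ℝ} (hx : 0 ≤ x) : acl x ≤ 15707 / 10000 := by
  unfold acl
  have : 0 ≤ x + x ^ 3 / 6 + x ^ 5 / 8 := by positivity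
  linarith

lemma le_cos {x φ : ℝ} (hx : 0 ≤ x) (hx' : x ≤ 1 / 2) (h : |φ| ≤ acl x) : x ≤ Real.cos φ := by
  set y := x + x ^ 3 / 6 + x ^ 5 / 8 with hy
  have hy0 : 0 ≤ y := by positivity
  have hpi := Real.pi_gt_d4
  have h1 : |φ| ≤ Real.pi / 2 - y := by
    unfold acl at h
    linarith
  have h2 : Real.cos (Real.pi / 2 - y) ≤ Real.cos |φ| :=
    Real.cos_le_cos_of_nonneg_of_le_pi (abs_nonneg _) (by linarith) h1
  rw [Real.cos_pi_div_two_sub, Real.cos_abs] at h2
  have h3 := Real.sin_ge_sub_cube hy0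
  have hz : x ^ 2 ≤ 1 / 4 := by nlinarith
  have hz0 : 0 ≤ x ^ 2 := by positivity
  set z := x ^ 2 with hzdef
  set e := z / 6 + z ^ 2 / 8 with he
  have he0 : 0 ≤ e := by positivity
  have he1 : e ≤ z / 5 := by nlinarith
  have he2 : e ≤ 1 / 20 := by linarith
  have h4 : (1 + e) ^ 3 ≤ 1 + 3 * z / 4 := by nlinarith [mul_nonneg he0 he0]
  have h5 : y = x * (1 + e) := by rw [hy, he, hzdef]; ring
  have h6 : y ^ 3 ≤ x ^ 3 * (1 + 3 * z / 4) := by
    rw [h5, mul_pow]
    exact mul_le_mul_of_nonneg_left h4 (by positivity)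
  have h7 : x ^ 3 * (1 + 3 * z / 4) = x ^ 3 + 3 * x ^ 5 / 4 := by rw [hzdef]; ring
  linarith

lemma polar_mem {s φ ρ θ : ℝ} (hs : 0 ≤ s) (hρ : 0 ≤ ρ) (h : s ≤ 2 * ρ * Real.cos (φ - θ)) :
    ‖(s : ℂ) * Complex.exp (φ * Complex.I) - ρ * Complex.exp (θ * Complex.I)‖ ≤ ρ := by
  apply le_of_sq_le_sq _ hρ |>.trans le_rfl
  rw [Complex.sq_norm, Complex.normSq_apply]
  simp only [Complex.sub_re, Complex.sub_im, Complex.re_ofReal_mul, Complex.im_ofReal_mul,
    Complex.exp_ofReal_mul_I_re, Complex.exp_ofReal_mul_I_im]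
  rw [Real.cos_sub] at h
  have h1 := Real.sin_sq_add_cos_sq φ
  have h2 := Real.sin_sq_add_cos_sq θ
  have h3 := mul_le_mul_of_nonneg_left h hs
  have e1 : s ^ 2 * (Real.sin φ ^ 2 + Real.cos φ ^ 2) = s ^ 2 := by rw [h1, mul_one]
  have e2 : ρ ^ 2 * (Real.sin θ ^ 2 + Real.cos θ ^ 2) = ρ ^ 2 := by rw [h2, mul_one]
  nlinarith

lemma norm_polar {s φ : ℝ} (hs : 0 ≤ s) : ‖(s : ℂ) * Complex.exp (φ * Complex.I)‖ = s := by
  rw [norm_mul, Complex.norm_exp_ofReal_mul_I, Complex.norm_real, Real.norm_eq_abs,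
    abs_of_nonneg hs, mul_one]

/-- a point of a sector lies in the lens -/
lemma mem_lens {r ρ s φ : ℝ} {n i : ℕ} (hr : 0 < r) (hρ : 0 ≤ ρ) (hρr : ρ ≤ r) (hi : i < n)
    (hs : 0 ≤ s) (hs' : s < ρ * (i + 1) / n) (hφ : |φ| ≤ acl (ρ * (i + 1) / (2 * r * n))) :
    (s : ℂ) * Complex.exp (φ * Complex.I) ∈ DD r ∩ ball 0 ρ := by
  have hn : (0 : ℝ) < n := by exact_mod_cast (Nat.zero_le i).trans_lt hi
  have hin : (i : ℝ) + 1 ≤ n := by exact_mod_cast hi
  have hx' : ρ * (i + 1) / (2 * r * n) ≤ 1 / 2 := by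
    rw [div_le_iff₀ (by positivity)]
    have : ρ * (i + 1) ≤ r * n := mul_le_mul hρr hin (by positivity) hr.le
    linarith
  have hc := le_cos (by positivity) hx' hφ
  have h1 : ρ * (i + 1) / n ≤ ρ := by
    rw [div_le_iff₀ hn]
    exact mul_le_mul_of_nonneg_left hin hρ
  refine ⟨?_, ?_⟩
  · have h2 : s ≤ 2 * r * Real.cos (φ - 0) := by
      rw [sub_zero]
      have h3 : ρ * (i + 1) / n = 2 * r * (ρ * (i + 1) / (2 * r * n)) := by field_simp
      have h4 := mul_le_mul_of_nonneg_left hc (by positivity : (0 : ℝ) ≤ 2 * r)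
      linarith
    have h5 := polar_mem hs hr.le h2
    simpa [DD, dist_eq_norm] using h5
  · rw [mem_ball_zero_iff, norm_polar hs]
    linarith

lemma mono_t {ρ : ℝ} (hρ : 0 ≤ ρ) (n : ℕ) : Monotone fun i : ℕ => ρ * i / n := by
  intro i j hij
  have : (i : ℝ) ≤ j := by exact_mod_cast hij
  exact div_le_div_of_nonneg_right (mul_le_mul_of_nonneg_left this hρ) (Nat.cast_nonneg n)

/-- the sectors that lie in both lenses -/
lemma two_lens (h : SArea) {r ρ₁ R : ℝ} {n : ℕ} {b₁ b₂ α β : ℕ → ℝ} {u : ℂ} (hr : 0 < r)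
    (hρ : 0 ≤ ρ₁) (hρr : ρ₁ ≤ r) (hn : 0 < n)
    (h1 : ∀ i < n, b₁ i ≤ acl ((i + 1) / (2 * n)))
    (h2 : ∀ i < n, b₂ i ≤ acl (ρ₁ * (i + 1) / (2 * r * n))) (hu : ρ₁ ≤ ‖u‖) (hR : ‖u‖ < R)
    (ha : ∀ i, -b₂ i ≤ α i) (hb : ∀ i, β i ≤ b₂ i) (ha' : ∀ i, u.arg - b₁ i ≤ α i)
    (hb' : ∀ i, β i ≤ u.arg + b₁ i) :
    ∑ i ∈ Finset.range n, ρ₁ ^ 2 * (2 * i + 1) / (2 * n ^ 2) * max 0 (β i - α i) ≤
      ar (ball u R ∩ (DD r ∩ ball 0 ρ₁)) := by
  have hn' : (0 : ℝ) < n := by exact_mod_cast hn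
  have hpi := Real.pi_gt_d4
  have key := h.1 (ball u R ∩ (DD r ∩ ball 0 ρ₁)) n (fun i : ℕ => ρ₁ * i / n) α β
    (isBounded_ball.subset inter_subset_left) (by simp) (mono_t hρ n)
    (fun i hi _ => by
      have e1 := (h2 i hi).trans (acl_le (by positivity))
      have e2 := ha i
      have e3 := hb i
      constructor <;> linarith)
    (fun i hi s φ hs hs' hφ hφ' => by
      have hs0 : 0 ≤ s := le_trans (by positivity) hs.le
      have hs1 : s < ρ₁ * (i + 1) / n := by simpa using hs'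
      have hin : (i : ℝ) + 1 ≤ n := by exact_mod_cast hi
      refine ⟨?_, mem_lens hr hρ hρr hi hs0 hs1 ?_⟩
      · have hx' : ((i : ℝ) + 1) / (2 * n) ≤ 1 / 2 := by
          rw [div_le_iff₀ (by positivity)]
          linarith
        have hc : ((i : ℝ) + 1) / (2 * n) ≤ Real.cos (φ - u.arg) := by
          refine le_cos (by positivity) hx' (le_trans ?_ (h1 i hi))
          have e2 := ha' i
          have e3 := hb' i
          rw [abs_le]
          constructor <;> linarith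
        have e4 : s ≤ 2 * ‖u‖ * Real.cos (φ - u.arg) := by
          have e5 : ρ₁ * (i + 1) / n = 2 * ρ₁ * ((i + 1) / (2 * n)) := by field_simp
          have e6 : 2 * ρ₁ * ((i + 1) / (2 * n)) ≤ 2 * ‖u‖ * Real.cos (φ - u.arg) :=
            mul_le_mul (by linarith) hc (by positivity) (by positivity)
          linarith
        have e7 := polar_mem hs0 (norm_nonneg u) e4
        rw [Complex.norm_mul_exp_arg_mul_I] at e7
        rw [mem_ball, dist_eq_norm]
        linarith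
      · refine le_trans ?_ (h2 i hi)
        have e2 := ha i
        have e3 := hb i
        rw [abs_le]
        constructor <;> linarith)
  refine le_trans (le_of_eq ?_) key
  refine Finset.sum_congr rfl fun i _ => ?_
  congr 1
  push_cast
  field_simp
  ring

end LocP

open LocP

theorem sest (h : SArea) : SEst := by
  refine ⟨fun r ρ n b hr hρ hρr hn hb => ?_,
    fun r ρ₁ ρ₂ θ₁ θ₂ R n b₁ b₂ hr hρ hρr hR hn h1 h2 u hu => ?_⟩
  · have hn' : (0 : ℝ) < n := by exact_mod_cast hn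
    have hpi := Real.pi_gt_d4
    have key := h.1 (DD r ∩ ball 0 ρ) n (fun i : ℕ => ρ * i / n) (fun i => -b i) b
      (isBounded_ball.subset inter_subset_right) (by simp) (mono_t hρ n)
      (fun i hi _ => by
        have e1 := (hb i hi).trans (acl_le (by positivity))
        constructor <;> linarith)
      (fun i hi s φ hs hs' hφ hφ' => by
        have hs0 : 0 ≤ s := le_trans (by positivity) hs.le
        have hs1 : s < ρ * (i + 1) / n := by simpa using hs'
        refine mem_lens hr hρ hρr hi hs0 hs1 (le_trans ?_ (hb i hi))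
        rw [abs_le]
        constructor <;> linarith)
    refine le_trans (Finset.sum_le_sum fun i _ => ?_) key
    have e1 : ((ρ * ((i + 1 : ℕ) : ℝ) / n) ^ 2 - (ρ * i / n) ^ 2) / 2 =
        ρ ^ 2 * (2 * i + 1) / n ^ 2 / 2 := by
      push_cast
      field_simp
      ring
    have e2 : (0 : ℝ) ≤ ρ ^ 2 * (2 * i + 1) / n ^ 2 / 2 := by positivity
    have e3 := mul_le_mul_of_nonneg_left (le_max_right 0 (b i - -b i)) e2
    rw [e1]
    linarith
  · obtain ⟨hu1, hu2, hu3, hu4⟩ := hu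
    rcases le_total 0 u.arg with h0 | h0
    · rw [abs_of_nonneg h0] at hu3 hu4
      have key := two_lens h (α := fun i => u.arg - min (b₁ i) (b₂ i + θ₁))
        (β := fun i => u.arg + min (b₁ i) (b₂ i - θ₂)) hr hρ hρr hn h1 h2 hu1 (hu2.trans_lt hR)
        (fun i => by have := min_le_right (b₁ i) (b₂ i + θ₁); linarith)
        (fun i => by have := min_le_right (b₁ i) (b₂ i - θ₂); linarith)
        (fun i => by have := min_le_left (b₁ i) (b₂ i + θ₁); linarith)
        (fun i => by have := min_le_left (b₁ i) (b₂ i - θ₂); linarith)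
      refine le_trans (le_of_eq ?_) key
      refine Finset.sum_congr rfl fun i _ => ?_
      congr 2
      ring
    · rw [abs_of_nonpos h0] at hu3 hu4
      have key := two_lens h (α := fun i => u.arg - min (b₁ i) (b₂ i - θ₂))
        (β := fun i => u.arg + min (b₁ i) (b₂ i + θ₁)) hr hρ hρr hn h1 h2 hu1 (hu2.trans_lt hR)
        (fun i => by have := min_le_right (b₁ i) (b₂ i - θ₂); linarith)
        (fun i => by have := min_le_right (b₁ i) (b₂ i + θ₁); linarith)
        (fun i => by have := min_le_left (b₁ i) (b₂ i - θ₂); linarith)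
        (fun i => by have := min_le_left (b₁ i) (b₂ i + θ₁); linarith)
      refine le_trans (le_of_eq ?_) key
      refine Finset.sum_congr rfl fun i _ => ?_
      congr 2
      ring

theorem sloc (h1 : SSmall) (h2 : SBox) : SLoc := by
  intro k n m r w η ρ l a θ b hη hr hρ0 hρ hθ0 hθ hθm hw hl ha hb hb' O hO hOη
  have hρn : ∀ i, 0 ≤ ρ i := fun i => hρ0 ▸ hρ (Nat.zero_le i)
  have hθn : ∀ i c, 0 ≤ θ i c := fun i c => hθ0 i ▸ hθ i (Nat.zero_le c)
  have hL : Ok (DD r ∩ ball 0 (ρ n)) := (ok_DD r).inter measurableSet_ball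
  have hA : UB (ball (r : ℂ) w \ O) (fun S => S ∩ (DD r ∩ ball 0 (ρ n)) = ∅) (Real.exp (-l n)) := by
    refine (h1 _ (hL.diff hO)).1.mono ?_ ?_ ?_
    · refine sdiff_subset_sdiff_left fun x hx => ?_
      have e1 : dist x r ≤ r := hx.1
      have := hρn n
      rw [mem_ball]
      linarith
    · intro S _ hS
      exact subset_eq_empty (inter_subset_inter_right _ sdiff_subset) hS
    · refine Real.exp_le_exp.2 (neg_le_neg ((hl n le_rfl).trans (max_le (ar_nonneg _) ?_)))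
      rw [ar_diff hL.2 hO]
      have e1 : ar (DD r ∩ ball 0 (ρ n) ∩ O) ≤ ar (closedBall 0 η) :=
        ar_mono (inter_subset_right.trans hOη) isBounded_closedBall
      rw [ar_closedBall _ hη.le] at e1
      have e2 := mul_le_mul_of_nonneg_right Real.pi_le_four (sq_nonneg η)
      nlinarith [sq_nonneg η]
  have hB := ub_exists (Finset.range n) (W := ball (r : ℂ) w \ O) (fun i hi =>
    ub_exists (Finset.range m) (fun c hc =>
      h2 k r w η O (ρ i) (ρ (i + 1)) (θ i c) (θ i (c + 1)) (l i) (a i) (b i c) hO hOη hη hr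
        (hρn i) (hρ (Nat.le_succ i)) (hθn i c) (hθ i (Nat.le_succ c))
        (by have := hρ (show i + 1 ≤ n from Finset.mem_range.1 hi); linarith)
        (hl i (Finset.mem_range.1 hi).le) (ha i (Finset.mem_range.1 hi))
        (hb i (Finset.mem_range.1 hi) c (Finset.mem_range.1 hc))
        (hb' i (Finset.mem_range.1 hi) c (Finset.mem_range.1 hc))))
  refine (hA.or hB).mono le_rfl ?_ le_rfl
  intro S hS hE
  rcases (S ∩ (DD r ∩ ball 0 (ρ n))).eq_empty_or_nonempty with he | hne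
  · exact Or.inl he
  right
  obtain ⟨u, hu, hmin⟩ := Set.exists_min_image _ (fun x : ℂ => ‖x‖) (hS _ hL.2) hne
  have hun : ‖u‖ < ρ n := mem_ball_zero_iff.1 hu.2.2
  have hn : 0 < n := by
    rcases Nat.eq_zero_or_pos n with rfl | hn
    · rw [hρ0] at hun
      exact absurd hun (not_lt.2 (norm_nonneg u))
    · exact hn
  obtain ⟨i, hi, hi1, hi2⟩ := exists_step ρ ‖u‖ (hρ0 ▸ norm_nonneg u) n hn hun.le
  have e1 := arg_le hr hu.2.1
  have e2 := hθm i hi
  have e3 : ρ i / (2 * r) ≤ ‖u‖ / (2 * r) := div_le_div_of_nonneg_right hi1 (by positivity)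
  have hm : 0 < m := by
    rcases Nat.eq_zero_or_pos m with rfl | hm
    · exfalso
      rw [hθ0] at e2
      have e4 : ‖u‖ / (2 * r) ≤ 1 := (div_le_one (by positivity)).2 (norm_le hr hu.2.1)
      have := Real.pi_gt_three
      linarith
    · exact hm
  obtain ⟨c, hc, hc1, hc2⟩ :=
    exists_step (θ i) |u.arg| (by rw [hθ0]; exact abs_nonneg _) m hm (by linarith)
  refine ⟨i, Finset.mem_range.2 hi, c, Finset.mem_range.2 hc, hE, ?_,
    u, hu.1, hu.2.1, hi1, hi2, hc1, hc2⟩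
  refine eq_empty_of_forall_notMem fun x hx => ?_
  have e5 : ‖x‖ < ρ i := mem_ball_zero_iff.1 hx.2.2
  have e6 : ‖u‖ ≤ ‖x‖ :=
    hmin x ⟨hx.1, hx.2.1, mem_ball_zero_iff.2 (e5.trans_le (hρ hi.le))⟩
  linarith

end Pool.Agent.P.MP_50fd71_pr
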