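import Pool.Agent.P.MP_50fd71_pr.Num

/-!
Evaluation of sixteen shells.
-/

namespace Pool.Agent.P.MP_50fd71_pr.NumP

theorem rows6 : (sm 8 fun i => row 9 (48 + i)) ≤ 823763 / 10 ^ 9 := by decide +kernel

theorem rows7 : (sm 8 fun i => row 9 (56 + i)) ≤ 629403 / 10 ^ 9 := by decide +kernel

end Pool.Agent.P.MP_50fd71_pr.NumP
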