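import Pool.Agent.P.MP_50fd71_pr.And
import Pool.Agent.P.MP_50fd71_pr.Small
import Pool.Agent.P.MP_50fd71_pr.Two
import Pool.Agent.P.MP_50fd71_pr.Piece
import Pool.Agent.P.MP_50fd71_pr.Move
import Pool.Agent.P.MP_50fd71_pr.Area
import Pool.Agent.P.MP_50fd71_pr.Core
import Pool.Agent.P.MP_50fd71_pr.Box
import Pool.Agent.P.MP_50fd71_pr.Loc
import Pool.Agent.P.MP_50fd71_pr.Pei
import Pool.Agent.P.MP_50fd71_pr.LatB
import Pool.Agent.P.MP_50fd71_pr.NumA
import Pool.Agent.P.MP_50fd71_pr.NumB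
import Pool.Agent.P.MP_50fd71_pr.NumC
import Pool.Agent.P.MP_50fd71_pr.NumD

/-!
Percolation with nine neighbours.
-/

open MeasureTheory Set

namespace Pool.Agent.P.MP_50fd71_pr

open NumP

lemma total : eq (lo 64) + sm 64 (row 9) ≤ 4 / 1000 := by
  have h : eq (lo 64) ≤ 819350 / 10 ^ 9 := by decide +kernel
  have h0 := rows0
  have h1 := rows1
  have h2 := rows2
  have h3 := rows3
  have h4 := rows4
  have h5 := rows5
  have h6 := rows6
  have h7 := rows7
  simp only [sm_eq] at h0 h1 h2 h3 h4 h5 h6 h7 ⊢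
  have a := fun n => Finset.sum_range_add (row 9) n 8
  have a0 := a 0
  rw [Finset.sum_range_zero] at a0
  linarith [a 8, a 16, a 24, a 32, a 40, a 48, a 56]

theorem perc9 {Ω : Type} [MeasurableSpace Ω] {μ : Measure Ω} {P : Ω → Set ℂ} (h : Poi μ P) :
    ∀ᵐ ω ∂μ, ∃ x, {y | Relation.ReflTransGen (Adj 9 (P ω)) x y}.Infinite := by
  have h1 := loc stail (sloc ssmall (sbox sand ssmall stail (stwo stail) (spiece sand ssmall) sarea
    score)) (sest sarea) 9 _ total
  have h2 := sedge ssmall (spiece sand ssmall) smove sarea 9 (5 / 2) (4901 / 1000) (1 / 4000)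
    (4 / 1000) (by norm_num) (by norm_num) (by norm_num) (by norm_num) (by convert h1 using 1 <;> norm_num)
  refine spei sand slat 9 45274 (5 / 2) (4901 / 1000) (1 / 4000) _ (by norm_num) (by norm_num) ?_
    (by positivity) ?_ h2 Ω μ P h
  · have : (173205 / 100000 : ℝ) ≤ √3 := Real.le_sqrt_of_sq_le (by norm_num)
    push_cast
    linarith
  · have e1 := exp_le (x := 196 / 10) (by norm_num)
    have e2 : eq (196 / 10) ≤ 32 / 10 ^ 10 := by decide +kernel
    have e3 := Rat.cast_le (K := ℝ).2 e2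
    have e4 : Real.exp (-(Real.pi * (5 / 2) ^ 2)) ≤ Real.exp (-((196 / 10 : ℚ) : ℝ)) :=
      Real.exp_le_exp.2 (by push_cast; linarith [Real.pi_gt_d4])
    push_cast at *
    linarith

end Pool.Agent.P.MP_50fd71_pr
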