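import Pool.Agent.P.MP_50fd71_pr.Basic

/-!
Rational bounds for the local estimate.
-/

open MeasureTheory Set Metric Finset

namespace Pool.Agent.P.MP_50fd71_pr.NumP

/-- rounding down -/
def dn (N : ℕ) (x : ℚ) : ℚ := (⌊x * 10 ^ N⌋ : ℤ) / 10 ^ N
/-- rounding up -/
def up (N : ℕ) (x : ℚ) : ℚ := (⌈x * 10 ^ N⌉ : ℤ) / 10 ^ N
/-- finite sum -/
def sm (n : ℕ) (f : ℕ → ℚ) : ℚ := Nat.rec 0 (fun i s => s + f i) n
/-- lower bound of the arccosine -/
def aq (x : ℚ) : ℚ := dn 6 (15707 / 10000 - (x + x ^ 3 / 6 + x ^ 5 / 8))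
/-- head of the exponential series -/
def hd (n : ℕ) (x : ℚ) : ℚ := sm n fun j => x ^ j / j.factorial
/-- upper bound of the Poisson tail -/
def tq (k : ℕ) (x : ℚ) : ℚ :=
  if x ≤ 23 then up 9 (1 - hd k x / (hd 45 x + x ^ 45 / (45 : ℕ).factorial * 2)) else 1
/-- upper bound of `exp (-x)` -/
def eq (x : ℚ) : ℚ := up 10 (1 / hd 45 x)

lemma dn_le (N : ℕ) (x : ℚ) : dn N x ≤ x := by
  rw [dn, div_le_iff₀ (by positivity)]
  exact Int.floor_le _

lemma le_up (N : ℕ) (x : ℚ) : x ≤ up N x := by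
  rw [up, le_div_iff₀ (by positivity)]
  exact Int.le_ceil _

lemma sm_eq (n : ℕ) (f : ℕ → ℚ) : sm n f = ∑ i ∈ range n, f i := by
  induction n with
  | zero => rfl
  | succ n ih => rw [sum_range_succ, ← ih]; rfl

lemma aq_le (x : ℚ) : (aq x : ℝ) ≤ acl x := by
  refine (Rat.cast_le.2 (dn_le _ _)).trans_eq ?_
  simp [acl]

lemma hd_cast (n : ℕ) (x : ℚ) : (hd n x : ℝ) = ∑ j ∈ range n, (x : ℝ) ^ j / j.factorial := by
  simp [hd, sm_eq]

lemma hd_pos {x : ℚ} (hx : 0 ≤ x) (n : ℕ) : (0 : ℝ) < hd (n + 1) x := by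
  have : (0 : ℝ) ≤ x := by exact_mod_cast hx
  rw [hd_cast, sum_range_succ']
  positivity

lemma exp_le {x : ℚ} (hx : 0 ≤ x) : Real.exp (-x) ≤ eq x := by
  refine le_trans ?_ (Rat.cast_le.2 (le_up _ _))
  rw [Real.exp_neg, ← one_div]
  push_cast
  refine one_div_le_one_div_of_le (hd_pos hx 44) ?_
  rw [hd_cast]
  exact Real.sum_le_exp_of_nonneg (by exact_mod_cast hx) _

lemma T_le {x : ℚ} (hx : 0 ≤ x) (k : ℕ) : T k x ≤ tq k x := by
  have h0 : (0 : ℝ) ≤ x := by exact_mod_cast hx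
  have h1 : (0 : ℝ) ≤ ∑ j ∈ range k, (x : ℝ) ^ j / j.factorial := by positivity
  unfold tq T
  split_ifs with h
  · refine le_trans ?_ (Rat.cast_le.2 (le_up _ _))
    have h2 : (x : ℝ) ≤ 23 := by exact_mod_cast h
    have h3 := Complex.exp_bound' (x := ((x : ℝ) : ℂ)) (n := 45) (by
      rw [Complex.norm_real, Real.norm_of_nonneg h0]; push_cast; linarith)
    have h4 : Real.exp x ≤ hd 45 x + (x : ℝ) ^ 45 / (45 : ℕ).factorial * 2 := by
      rw [Complex.norm_real, Real.norm_of_nonneg h0] at h3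
      rw [hd_cast, ← sub_le_iff_le_add']
      refine (le_abs_self _).trans (le_of_eq_of_le ?_ h3)
      rw [← Real.norm_eq_abs, ← Complex.norm_real]
      push_cast
      rfl
    push_cast
    rw [hd_cast k, Real.exp_neg, inv_mul_eq_div]
    exact sub_le_sub_left (div_le_div_of_nonneg_left h1 (Real.exp_pos _) h4) _
  · have := Real.exp_pos (-x)
    push_cast
    nlinarith

/-- radii -/
def rho (i : ℕ) : ℚ := if i ≤ 4 then 3 * i / 10 else 6 / 5 + (i - 4 : ℕ) / 50
/-- lens area -/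
def lq (ρ : ℚ) : ℚ :=
  dn 6 (sm 30 fun i => ρ ^ 2 * (2 * i + 1) / 30 ^ 2 * aq (ρ * (i + 1) / (2 * (5 / 2) * 30)))
/-- angles -/
def th (i c : ℕ) : ℚ := c * up 6 ((15708 / 10000 - rho i / 5) / 8)
/-- second lens area -/
def iq (ρ t₁ t₂ : ℚ) : ℚ := dn 6 (sm 30 fun i => ρ ^ 2 * (2 * i + 1) / (2 * 30 ^ 2) *
  max 0 (min (aq ((i + 1) / (2 * 30))) (aq (ρ * (i + 1) / (2 * (5 / 2) * 30)) - t₂) +
    min (aq ((i + 1) / (2 * 30))) (aq (ρ * (i + 1) / (2 * (5 / 2) * 30)) + t₁)))
/-- disc area -/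
def pr (i : ℕ) : ℚ := 31416 / 10000 * (rho (i + 1) + 1 / 1000) ^ 2
/-- empty area -/
def lo (i : ℕ) : ℚ := max 0 (dn 3 (lq (rho i) - 7 / 2000 ^ 2))
/-- first area -/
def aa (i : ℕ) : ℚ := max 0 (up 3 (pr i - lq (rho (i + 1))))
/-- second area -/
def bb (i c : ℕ) : ℚ := max 0 (up 3 (pr i - iq (rho i) (th i c) (th i (c + 1))))
/-- one radial shell -/
def row (k i : ℕ) : ℚ := up 9 (sm 8 fun c => (rho (i + 1) ^ 2 - rho i ^ 2) *
  (th i (c + 1) - th i c) * (eq (lo i) * (tq k (aa i) * tq k (bb i c)) + 5 / 2000 ^ 2))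

lemma rho_mono : Monotone rho := monotone_nat_of_le_succ fun i => by
  unfold rho
  split_ifs with h1 h2 h2
  · push_cast; linarith
  · obtain rfl : i = 4 := by omega
    norm_num
  · omega
  · rw [show i + 1 - 4 = i - 4 + 1 by omega]; push_cast; linarith

lemma rho_nn (i : ℕ) : (0 : ℝ) ≤ rho i := by
  exact_mod_cast (rho_mono i.zero_le).trans_eq' (by simp [rho])

lemma rho_le {i : ℕ} (h : i ≤ 64) : (rho i : ℝ) ≤ 12 / 5 := by
  have : rho i ≤ 12 / 5 := (rho_mono h).trans_eq (by norm_num [rho])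
  exact (Rat.cast_le.2 this).trans_eq (by norm_num)

lemma lq_le (h : SEst) {i : ℕ} (hi : i ≤ 64) :
    (lq (rho i) : ℝ) ≤ ar (DD (5 / 2) ∩ ball 0 (rho i)) := by
  refine (Rat.cast_le.2 (dn_le _ _)).trans (le_of_eq_of_le ?_ (h.1 (5 / 2) (rho i) 30
    (fun j => aq (rho i * (j + 1) / (2 * (5 / 2) * 30))) (by norm_num) (rho_nn i)
    ((rho_le hi).trans (by norm_num)) (by norm_num) fun j _ => (aq_le _).trans_eq ?_))
  · simp [sm_eq]
  · simp

lemma ok_lens (ρ : ℝ) : Ok (DD (5 / 2) ∩ ball 0 ρ) := (ok_closedBall _ _).inter measurableSet_ball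

lemma ar_pr (u : ℂ) (i : ℕ) : ar (ball u (rho (i + 1) + 2 * (1 / 2000))) ≤ pr i := by
  have := rho_nn (i + 1)
  rw [ar_ball _ (by positivity), pr]
  push_cast
  rw [show (2 : ℝ) * (1 / 2000) = 1 / 1000 by norm_num]
  exact mul_le_mul_of_nonneg_right (Real.pi_lt_d4.le.trans (by norm_num)) (sq_nonneg _)

lemma th_step {i : ℕ} (hi : i ≤ 64) : (0 : ℝ) ≤ up 6 ((15708 / 10000 - rho i / 5) / 8) := by
  refine le_trans ?_ (Rat.cast_le.2 (le_up _ _))
  have := rho_le hi
  push_cast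
  linarith

theorem loc (h1 : STail) (h2 : SLoc) (h3 : SEst) (k : ℕ) (p : ℚ)
    (hp : eq (lo 64) + sm 64 (row k) ≤ p) : Loc k (5 / 2) (4901 / 1000) (1 / 2000) p := by
  have H := h2 k 64 8 (5 / 2) (4901 / 1000) (1 / 2000) (fun i => rho i) (fun i => lo i)
    (fun i => aa i) (fun i c => th (min i 64) c) (fun i c => bb i c) (by norm_num) (by norm_num)
    (by simp [rho]) (fun i j h => Rat.cast_le.2 (rho_mono h)) (by simp [th])
    (fun i a b h => by
      simp only [th, Rat.cast_mul, Rat.cast_natCast]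
      exact mul_le_mul_of_nonneg_right (by exact_mod_cast h) (th_step (min_le_right _ _)))
    (fun i hi => by
      have := Rat.cast_le (K := ℝ).2 (le_up 6 ((15708 / 10000 - rho i / 5) / 8))
      have := Real.pi_lt_d4
      simp only [th, min_eq_left hi.le]
      push_cast at *
      linarith)
    (by norm_num [rho])
    (fun i hi => by
      have := Rat.cast_le (K := ℝ).2 (dn_le 3 (lq (rho i) - 7 / 2000 ^ 2))
      have := lq_le h3 hi
      simp only [lo]
      push_cast at *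
      exact max_le_max le_rfl (by linarith))
    (fun i hi => by
      have := Rat.cast_le (K := ℝ).2 (le_up 3 (pr i - lq (rho (i + 1))))
      have := lq_le h3 (i := i + 1) hi
      have := ar_pr 0 i
      have : ar (DD (5 / 2) ∩ ball 0 (rho (i + 1))) ≤
          ar (ball 0 (rho (i + 1) + 2 * (1 / 2000)) ∩ DD (5 / 2)) :=
        ar_mono (fun x hx => ⟨ball_subset_ball (by norm_num) hx.2, hx.1⟩)
          (isBounded_ball.subset inter_subset_left)
      rw [ar_diff (B := DD (5 / 2)) isBounded_ball measurableSet_closedBall]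
      simp only [aa]
      push_cast at *
      exact le_max_of_le_right (by linarith))
    (fun i _ c _ => by simp [bb])
    (fun i hi c _ u hu => by
      have := Rat.cast_le (K := ℝ).2 (le_up 3 (pr i - iq (rho i) (th i c) (th i (c + 1))))
      have := ar_pr u i
      have : (iq (rho i) (th i c) (th i (c + 1)) : ℝ) ≤
          ar (ball u (rho (i + 1) + 2 * (1 / 2000)) ∩ (DD (5 / 2) ∩ ball 0 (rho i))) := by
        simp only [min_eq_left hi.le] at hu
        refine (Rat.cast_le.2 (dn_le _ _)).trans (le_of_eq_of_le ?_ (h3.2 (5 / 2) (rho i) _ _ _ _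
          30 (fun j => aq ((j + 1) / (2 * 30))) (fun j => aq (rho i * (j + 1) / (2 * (5 / 2) * 30)))
          (by norm_num) (rho_nn i) ((rho_le hi.le).trans (by norm_num)) (by norm_num) (by norm_num)
          (fun j _ => (aq_le _).trans_eq ?_) (fun j _ => (aq_le _).trans_eq ?_) u hu))
        · simp [sm_eq]
        · simp
        · simp
      rw [ar_diff isBounded_ball (ok_lens _).1]
      simp only [bb]
      push_cast at *
      exact le_max_of_le_right (by linarith))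
  refine fun O a b => (H O a b).mono le_rfl (fun _ _ h => h) (le_trans ?_ (Rat.cast_le.2 hp))
  rw [sm_eq]
  push_cast
  refine add_le_add (exp_le (le_max_left _ _)) (sum_le_sum fun i hi => ?_)
  refine le_trans ?_ (Rat.cast_le.2 (le_up _ _))
  have hi' := (mem_range.1 hi).le
  rw [sm_eq, min_eq_left hi']
  push_cast
  refine sum_le_sum fun c _ => mul_le_mul_of_nonneg_left ?_ (mul_nonneg ?_ ?_)
  · have a0 : 0 ≤ aa i := le_max_left _ _
    have b0 : 0 ≤ bb i c := le_max_left _ _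
    have t1 := h1.1 k (aa i) (by exact_mod_cast a0)
    have t2 := h1.1 k (bb i c) (by exact_mod_cast b0)
    have e1 := exp_le (x := lo i) (le_max_left _ _)
    refine add_le_add (mul_le_mul e1 (mul_le_mul (T_le a0 k) (T_le b0 k) t2
      (t1.trans (T_le a0 k))) (mul_nonneg t1 t2) ((Real.exp_pos _).le.trans e1)) (by norm_num)
  · exact sub_nonneg.2 (pow_le_pow_left₀ (rho_nn i) (Rat.cast_le.2 (rho_mono i.le_succ)) 2)
  · simp only [th]
    push_cast
    linarith [th_step hi']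

end Pool.Agent.P.MP_50fd71_pr.NumP
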